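import Mathlib
import Pool.Agent.Zk13.Rm.Defs

/-!
# Families of orthogonal motives with coefficients: definitions
-/

set_option autoImplicit false

namespace Pool.Agent.Zk13.Ro

open NumberField IsDedekindDomain Polynomial Module TensorProduct Pool.Agent.Y114.GF
  Pool.Agent.Y114.MU Pool.Agent.Y114.TF Pool.Agent.N978.HP Pool.Agent.Zk13.Pol Pool.Agent.Zk13
  Pool.Agent.Zk13.Rm

section operators

variable {F V : Type} [Field F] [AddCommGroup V] [Module F V]

/-- The operator `T` is a reflection on each of the eigenspaces of `a`: there is a vector `δ`, with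
components different from zero in all eigenspaces, such that `T δ = -δ` and `T x - x` is a linear
combination of the vectors `a ^ i δ`, for all `x`. (`d` is the number of the eigenspaces.) -/
def IsCoefReflection (d : ℕ) (a T : End F V) : Prop :=
  ∃ δ, Full d a δ ∧ T δ = -δ ∧ ∀ x, T x - x ∈ Submodule.span F (Set.range fun i : ℕ => (a ^ i) δ)

/-- `f (…, a v_i, …) = f (…, a v_j, …)` for all `i` and `j`: if `a` generates the coefficients `E`, the
form `f` is the composition of a multilinear form over `E` and a linear map from `E`. -/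
def Balanced {n : ℕ} (a : End F V) (f : V [⋀^Fin n]→ₗ[F] F) : Prop :=
  ∀ v i j, f (Function.update v i (a (v i))) = f (Function.update v j (a (v j)))

end operators

/-- The realizations of a polarized motive of even weight with coefficients in the algebra
`E = ℚ[x] / (P)`, which is a number field if `P` is irreducible, and of rank `n` over `E`: `x` acts by the
endomorphism `a`, and the polarization is a symmetric form with `ω (a u, v) = ω (u, a v)` (so it is the
trace of a symmetric form over `E`). For `P = x` this is a polarized motive of rank `n`. -/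
structure OrthMotive (P : ℚ[X]) (n : ℕ) (Γ : Type) [Group Γ] extends
    Motive (n * P.natDegree) 1 Γ where
  /-- the action of `x` -/
  a : ∀ (ℓ : ℕ) [Fact ℓ.Prime], End ℚ_[ℓ] (Fin (n * P.natDegree) → ℚ_[ℓ])
  root : ∀ (ℓ : ℕ) [Fact ℓ.Prime], aeval (a ℓ) (P.map (algebraMap ℚ ℚ_[ℓ])) = 0
  bilinear : ∀ (ℓ : ℕ) [Fact ℓ.Prime], SelfAdj (ω ℓ) (a ℓ)

section rational

variable {P : ℚ[X]} {n : ℕ} (M : OrthMotive P n Gal(AlgebraicClosure ℚ/ℚ))

/-- The action of the coefficients is defined over some number field, and the Galois group acts on the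
algebra of the coefficients: the conjugation with an element of the Galois group takes `a` to a
polynomial in `a`. -/
def Normalizes : Prop :=
  ∀ (ℓ : ℕ) [Fact ℓ.Prime] (g : Gal(AlgebraicClosure ℚ/ℚ)), NormalizesAlg (M.a ℓ) (M.ρ ℓ g)

/-- The elements of the inertia groups at `v` commute with the coefficients. -/
def InertiaCommutes (v : HeightOneSpectrum (𝓞 ℚ)) : Prop :=
  ∀ (ℓ : ℕ) [Fact ℓ.Prime], ¬ Above v ℓ → ∀ Q, PrimeOver Q v → ∀ g, InInertiaAt Q g →
    CommutesWith (M.a ℓ) (M.ρ ℓ g)

/-- The local monodromy at `v` is maximally unipotent, over `E`: for `ℓ` not below `v` and all `Q` above `v`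
the inertia group at `Q` acts unipotently, for some element `τ` the nilpotent operator `(τ - 1) ^ (n - 1)`
does not vanish on any of the eigenspaces of `a` (so `τ` has one Jordan block on each eigenspace), and
`φ τ φ⁻¹` acts as `τ ^ q`, for all (arithmetic) Frobenius elements `φ` at `Q`, where `q` is the order of
the residue field. -/
def MaxUnipotentAt (v : HeightOneSpectrum (𝓞 ℚ)) : Prop :=
  ∀ (ℓ : ℕ) [Fact ℓ.Prime], ¬ Above v ℓ → ∀ Q, PrimeOver Q v →
    MaxUnipotent P.natDegree n (M.a ℓ) (M.ρ ℓ) (fun g => InInertiaAt Q g)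
      (fun φ => IsFrobAt Q (q v) φ) (q v)

/-- The local monodromy at `v` contains a reflection over `E` (for example, the fibre has an ordinary
double point and even dimension, and `E = ℚ`): for `ℓ` not below `v` some element of an inertia group at
`v` acts as a reflection on each of the eigenspaces of `a`. -/
def ReflectionAt (v : HeightOneSpectrum (𝓞 ℚ)) : Prop :=
  ∀ (ℓ : ℕ) [Fact ℓ.Prime], ¬ Above v ℓ → ∃ Q g, PrimeOver Q v ∧ InInertiaAt Q g ∧
    IsCoefReflection P.natDegree (M.a ℓ) (M.ρ ℓ g)

end rational

section two

variable {P P' : ℚ[X]} {n n' : ℕ}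

/-- Some element of an inertia group at `v` acts in different ways on the eigenspace of the coefficients of
`M` for the root `z` of `P` and on the eigenspace of the coefficients of `M'` for the root `z'` of `P'`. -/
def DifferAt (M : OrthMotive P n Gal(AlgebraicClosure ℚ/ℚ))
    (M' : OrthMotive P' n' Gal(AlgebraicClosure ℚ/ℚ)) (v : HeightOneSpectrum (𝓞 ℚ)) (ℓ : ℕ)
    [Fact ℓ.Prime] (z z' : AlgebraicClosure ℚ_[ℓ]) : Prop :=
  ∃ Q g, PrimeOver Q v ∧ InInertiaAt Q g ∧
    DifferOver (AlgebraicClosure ℚ_[ℓ]) (M.a ℓ) (M.ρ ℓ g) z (M'.a ℓ) (M'.ρ ℓ g) z'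

/-- The local monodromy at `v` is different on the different eigenspaces of the coefficients of `M`. -/
def ConjugatesDifferAt (M : OrthMotive P n Gal(AlgebraicClosure ℚ/ℚ))
    (v : HeightOneSpectrum (𝓞 ℚ)) : Prop :=
  ∀ (ℓ : ℕ) [Fact ℓ.Prime], ¬ Above v ℓ → ∀ z z' : AlgebraicClosure ℚ_[ℓ],
    aeval z (P.map (algebraMap ℚ ℚ_[ℓ])) = 0 → aeval z' (P.map (algebraMap ℚ ℚ_[ℓ])) = 0 →
      z ≠ z' → DifferAt M M v ℓ z z'

/-- The local monodromies at `v` are different on all eigenspaces of the coefficients of `M` and of `M'`. -/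
def MotivesDifferAt (M : OrthMotive P n Gal(AlgebraicClosure ℚ/ℚ))
    (M' : OrthMotive P' n' Gal(AlgebraicClosure ℚ/ℚ)) (v : HeightOneSpectrum (𝓞 ℚ)) : Prop :=
  ∀ (ℓ : ℕ) [Fact ℓ.Prime], ¬ Above v ℓ → ∀ z z' : AlgebraicClosure ℚ_[ℓ],
    aeval z (P.map (algebraMap ℚ ℚ_[ℓ])) = 0 → aeval z' (P'.map (algebraMap ℚ ℚ_[ℓ])) = 0 →
      DifferAt M M' v ℓ z z'

/-- There are two prime numbers which do not divide `N` at which the local monodromies of `M` and `M'` are
different (for example, `M` has maximally unipotent monodromy and `M'` has good reduction there). -/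
def DifferAtTwoPrimes (N : ℕ) (M : OrthMotive P n Gal(AlgebraicClosure ℚ/ℚ))
    (M' : OrthMotive P' n' Gal(AlgebraicClosure ℚ/ℚ)) : Prop :=
  ∃ p q : ℕ, p ≠ q ∧ ∀ r ∈ ({p, q} : Finset ℕ), r.Prime ∧ ¬ r ∣ N ∧
    ∀ v, Above v r → MotivesDifferAt M M' v

end two

section family

variable {P : ℚ[X]} {n : ℕ} (M : Pt → OrthMotive P n Gal(AlgebraicClosure ℚ/ℚ)) (w m : ℕ)
  (D : MvPolynomial (Fin 2) ℤ)

/-- The property `Pr` of the motives `M t` and the places holds at the zeros of the binary form `C`: for a
point `t` of `U` and a prime number `p`, not dividing `m`, which divides `C(t)` exactly once, it holds for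
`M t` at `p`. -/
def AtCusp (Pr : OrthMotive P n Gal(AlgebraicClosure ℚ/ℚ) → HeightOneSpectrum (𝓞 ℚ) → Prop)
    (C : MvPolynomial (Fin 2) ℤ) : Prop :=
  ∀ t p, InU D t → p.Prime → ¬ p ∣ m → (p : ℤ) ∣ t.val C → ¬ (p : ℤ) ^ 2 ∣ t.val C →
    ∀ v, Above v p → Pr (M t) v

/-- The conditions on the family:

* `M t` is a family of pure motives of even weight `w` and rank `n ≥ 3` over `E = ℚ[x] / (P)` over `U`, the
  complement of the zeros of the binary form `D`, with a symmetric polarization and with good
  reduction outside of the divisors of `m`; the Galois group acts on the coefficients, without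
  ramification outside of the divisors of `m` (for example, the coefficients act over `ℚ`);
* at some cusps the local monodromy is maximally unipotent (so `n` is odd);
* at some cusps the local monodromy contains a reflection over `E`;
* if `E` is not `ℚ`, at some cusps the local monodromy is different on the different eigenspaces. -/
structure OrthFamily : Prop where
  monic : P.Monic
  separable : P.Separable
  pos : 0 < P.natDegree
  rank : 3 ≤ n
  even : Even w
  family : Family (fun t => (M t).toMotive) w m D
  normalizes : ∀ t, InU D t → Normalizes (M t)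
  unramified : ∀ t p, InU D t → p.Prime → ¬ p ∣ m → ∀ v, Above v p → InertiaCommutes (M t) v
  maximal : ∃ C, SimpleZeros C ∧ AtCusp M m D MaxUnipotentAt C
  reflection : ∃ C, SimpleZeros C ∧ AtCusp M m D ReflectionAt C
  conjugates : 1 < P.natDegree → ∃ C, SimpleZeros C ∧ AtCusp M m D ConjugatesDifferAt C

end family

section families

variable {P P' : ℚ[X]} {n n' : ℕ} (M : Pt → OrthMotive P n Gal(AlgebraicClosure ℚ/ℚ)) (m : ℕ)
  (D : MvPolynomial (Fin 2) ℤ) (M' : Pt → OrthMotive P' n' Gal(AlgebraicClosure ℚ/ℚ)) (m' : ℕ)
  (D' : MvPolynomial (Fin 2) ℤ)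

/-- At some cusps (the zeros of the binary form `C`) the local monodromies of the two families are
different: for a point `t` of `U` and `U'` and a prime number `p`, not dividing `m` and `m'`, which divides
`C(t)` exactly once, the local monodromies of `M t` and `M' t` at `p` are different. -/
def FamiliesDiffer : Prop :=
  ∃ C, SimpleZeros C ∧ ∀ t p, InU D t → InU D' t → p.Prime → ¬ p ∣ m → ¬ p ∣ m' →
    (p : ℤ) ∣ t.val C → ¬ (p : ℤ) ^ 2 ∣ t.val C → ∀ v, Above v p → MotivesDifferAt (M t) (M' t) v

/-- The local monodromy of the family `M` at the rational point `c` of the projective line is different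
from the local monodromy of the family `M'` at all other points: if `p` does not divide `m` and `m'` and
exactly divides `meet t c` (the section given by `t` meets the section given by `c` transversally over
`p`), and the reductions of `t'` and `c` modulo `p` are different, then the local monodromies of `M t`
and of `M' t'` at `p` are different. -/
def SpecialFor (c : Pt) : Prop :=
  ∀ t t' : Pt, InU D t → InU D' t' → ∀ p : ℕ, p.Prime → ¬ p ∣ m → ¬ p ∣ m' → (p : ℤ) ∣ meet t c →
    ¬ (p : ℤ) ^ 2 ∣ meet t c → ¬ (p : ℤ) ∣ meet t' c → ∀ v, Above v p →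
      MotivesDifferAt (M t) (M' t') v

/-- There are three rational points of the projective line at which the local monodromy of the family
`M` is different from the local monodromy of the family `M'` at all other points, and the same holds
(possibly with other points) if `M` and `M'` are exchanged. -/
def ThreeSpecial : Prop :=
  (∃ c : Fin 3 → Pt, Distinct c ∧ ∀ i, SpecialFor M m D M' m' D' (c i)) ∧
    ∃ c : Fin 3 → Pt, Distinct c ∧ ∀ i, SpecialFor M' m' D' M m D (c i)

/-- The members `M t` and `M' t'` can be distinguished: their local monodromies at two prime numbers which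
do not divide `N` are different, or they are members at the same point of different families, or members
at different points of families with three special points. -/
def Apart (N : ℕ) (t t' : Pt) : Prop :=
  DifferAtTwoPrimes N (M t) (M' t') ∨ (t = t' ∧ FamiliesDiffer M m D M' m' D') ∨
    (meet t t' ≠ 0 ∧ ThreeSpecial M m D M' m' D')

end families

section tate

variable {F : Type} [Field F] {κ : Type} {V : κ → Type} [∀ x, AddCommGroup (V x)]
  [∀ x, Module F (V x)] {Z : Type} [AddCommGroup Z] [Module F Z] {Γ : Type} [Group Γ]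

/-- The map `ψ` commutes with a subgroup of finite index, and it is the product of the forms
`ω x (a x ^ i u, v)`, for some sequence of the `x` and `i`, and of alternating forms `f j` of `n` vectors of
the summands `y j` which are balanced for the coefficients (so `f j` is the composition of the determinant
over `E` and a linear map from `E`), for some sequence of the `y`, where the `m` variables are distributed
in some way, and of a vector `z` of `Z`. -/
def IsOrthElementary (n : ℕ) (ρ : ∀ x, Representation F Γ (V x)) (ω : ∀ x, V x →ₗ[F] V x →ₗ[F] F)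
    (a : ∀ x, End F (V x)) (σ : Representation F Γ Z) {m : ℕ} (ψ : (Fin m → ∀ x, V x) → Z) :
    Prop :=
  (∃ Δ : Subgroup Γ, Δ.FiniteIndex ∧ ∀ s ∈ Δ, ∀ v, ψ (fun j => sumRep ρ s (v j)) = σ s (ψ v)) ∧
  ∃ (r b : ℕ) (e : (Fin r × Fin 2) ⊕ (Fin b × Fin n) ≃ Fin m) (x : Fin r → κ) (i : Fin r → ℕ)
    (y : Fin b → κ) (f : ∀ j, V (y j) [⋀^Fin n]→ₗ[F] F) (z : Z),
    (∀ j, Balanced (a (y j)) (f j)) ∧ ∀ v, ψ v =
      ((∏ l, coefForm ω a (x l) (i l) (v (e (Sum.inl (l, 0)))) (v (e (Sum.inl (l, 1))))) *
        ∏ j, f j fun t => v (e (Sum.inr (j, t))) (y j)) • z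

/-- `V` is the sum of the representations `V x` with the polarizations `ω x` and the coefficients `a x`. All
Tate classes in the tensor products of `Z` and tensor powers of (the dual of) `V`, over all number fields,
are linear combinations of Tate classes which are products of the forms `ω x (a x ^ i u, v)`, of
determinants over the coefficients, and of vectors of `Z`. -/
def OrthTateWith (n : ℕ) (ρ : ∀ x, Representation F Γ (V x)) (ω : ∀ x, V x →ₗ[F] V x →ₗ[F] F)
    (a : ∀ x, End F (V x)) (σ : Representation F Γ Z) : Prop :=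
  ∀ (m : ℕ) (φ : MultilinearMap F (fun _ : Fin m => ∀ x, V x) Z), IsTateMap (sumRep ρ) σ φ →
    (fun v => φ v) ∈ Submodule.span F {ψ | IsOrthElementary n ρ ω a σ ψ}

end tate

end Pool.Agent.Zk13.Ro
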