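import Mathlib
import Pool.Agent.Zk13.Rm.SumK
import Pool.Agent.Zk13.Pol.SumO
import Pool.Agent.Zk13.Pol.Tate
import Pool.Agent.Zk13.Ro.Defs

/-!
# The Lie algebra of the sum over the extension field, the orthogonal case
-/

set_option autoImplicit false
set_option linter.unusedSectionVars false
set_option linter.unusedVariables false

namespace Pool.Agent.Zk13.Ro

open Module Polynomial TensorProduct Pool.Agent.Zk13.Uni Pool.Agent.Y114.MU Pool.Agent.Y114.TF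
  Pool.Agent.H204R3.GP Pool.Agent.Zk13 Pool.Agent.Zk13.Rm

noncomputable section

section abs

variable {K : Type} [Field K] [CharZero K] [IsAlgClosed K] {ι : Type} [Fintype ι]
  {W : ι → Type} [∀ i, AddCommGroup (W i)] [∀ i, Module K (W i)] [∀ i, FiniteDimensional K (W i)]
  {N : Type} [AddCommGroup N] [Module K N] {Γ : Type} [Group Γ]

/-- `sum_lieO` for subspaces, and a group which preserves the forms. -/
theorem sum_subO [DecidableEq ι] (R : ∀ i, Representation K Γ (W i)) (G : Subgroup Γ)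
    (E : ∀ i, Submodule K (W i))
    (hE : ∀ i, ∀ s ∈ G, ∀ x ∈ E i, R i s x ∈ E i) (σ : Representation K Γ N)
    (O : ∀ i, W i →ₗ[K] W i →ₗ[K] K) {n : ℕ} (hn : 3 ≤ n)
    (hdim : ∀ i, finrank K (E i) = n)
    (hs : ∀ i x y, O i x y = O i y x) (hnd : ∀ i, ∀ u ∈ E i, (∀ v ∈ E i, O i u v = 0) → u = 0)
    (hsim : ∀ i, ∀ s ∈ G, ∀ u v, O i (R i s u) (R i s v) = O i u v)
    (hirr : ∀ i, ∀ U : Submodule K (W i), U ≤ E i → (∀ s ∈ G, ∀ x ∈ U, R i s x ∈ U) →
      U = ⊥ ∨ U = E i)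
    (τ : ι → Γ) (hτ : ∀ i, τ i ∈ G) (hσ : ∀ i, σ (τ i) = 1)
    (hnil : ∀ i, IsNilpotent (R i (τ i) - 1))
    (hne : ∀ i, ∃ x ∈ E i, ((R i (τ i) - 1) ^ (n - 1)) x ≠ 0)
    (hpair : ∀ i j, i ≠ j → ∀ θ : E i ≃ₗ[K] E j, ∃ (s : Γ) (hs : s ∈ G), ∀ e : K, e ^ 2 = 1 →
      ∃ v, θ ((R i s).restrict (hE i s hs) v) ≠ e • (R j s).restrict (hE j s hs) (θ v))
    (hrefl : ∀ i, ∃ δ ∈ E i, δ ≠ 0 ∧ ∃ g ∈ G, ∃ c : K, c ≠ 0 ∧
      ∀ x ∈ E i, R i g x = x + (c * O i δ x) • δ) :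
    ∀ i, ∀ X ∈ SpL ((O i).compl₁₂ (E i).subtype (E i).subtype),
      piE (V := fun i => ↥(E i)) (Pi.single i X) ∈
        lieM (V := fun i => ↥(E i)) (fun i => resR (R i) G (E i) (hE i))
          (σ.comp G.subtype : Representation K G N) := by
  classical
  have hirr' : ∀ i (U : Submodule K (E i)),
      (∀ s : G, ∀ u ∈ U, resR (R i) G (E i) (hE i) s u ∈ U) → U = ⊥ ∨ U = ⊤ := by
    intro i U hU
    have h1 : U.map (E i).subtype ≤ E i := by
      rintro _ ⟨x, -, rfl⟩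
      exact x.2
    have h2 : ∀ s ∈ G, ∀ x ∈ U.map (E i).subtype, R i s x ∈ U.map (E i).subtype := by
      rintro s hs' _ ⟨x, hx, rfl⟩
      exact ⟨_, hU ⟨s, hs'⟩ x hx, rfl⟩
    rcases hirr i _ h1 h2 with h3 | h3
    · left
      rw [Submodule.eq_bot_iff]
      intro x hx
      have h4 : (x : W i) ∈ U.map (E i).subtype := ⟨x, hx, rfl⟩
      rw [h3, Submodule.mem_bot] at h4
      exact Subtype.ext h4
    · right
      rw [eq_top_iff]
      intro x _
      have h4 : (x : W i) ∈ U.map (E i).subtype := by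
        rw [h3]
        exact x.2
      obtain ⟨y, hy, hyx⟩ := h4
      have h5 : y = x := Subtype.ext hyx
      rwa [← h5]
  have hnil' : ∀ i, IsNilpotent (resR (R i) G (E i) (hE i) ⟨τ i, hτ i⟩ - 1) := by
    intro i
    obtain ⟨j, hj⟩ := hnil i
    refine ⟨j, LinearMap.ext fun x => Subtype.ext ?_⟩
    rw [res_pow, hj]
    rfl
  have hne' : ∀ i, (resR (R i) G (E i) (hE i) ⟨τ i, hτ i⟩ - 1) ^ (n - 1) ≠ 0 := by
    intro i h0
    obtain ⟨x, hx, h1⟩ := hne i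
    apply h1
    have h2 := res_pow (R i) G (E i) (hE i) ⟨τ i, hτ i⟩ (n - 1) ⟨x, hx⟩
    rw [h0] at h2
    exact h2.symm
  refine sum_lieO (V := fun i => ↥(E i)) (fun i => resR (R i) G (E i) (hE i)) (1 : G →* K)
      (σ.comp G.subtype : Representation K G N)
      (fun i => (O i).compl₁₂ (E i).subtype (E i).subtype) hn hdim ?_ ?_ ?_ ?_ ?_
      (fun i => ⟨τ i, hτ i⟩) ?_ ?_ hnil' ?_ ?_
  · intro i u v
    exact hs i u v
  · intro i u hu
    exact Subtype.ext (hnd i u u.2 fun v hv => hu ⟨v, hv⟩)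
  · intro i s u v
    rw [MonoidHom.one_apply, one_mul]
    exact hsim i (s : Γ) s.2 (u : W i) (v : W i)
  · intro i Δ hΔ
    refine (Pool.Agent.Y114.AP.potentially (resR (R i) G (E i) (hE i)) (hirr' i)
      (τ := ⟨τ i, hτ i⟩) (e := 1) (by rw [pow_one]; exact hnil' i) ?_ Δ hΔ).1
    rw [pow_one, hdim]
    intro h0
    apply hne' i
    obtain ⟨c, hc⟩ := Nat.exists_eq_add_of_le (show n / 2 ≤ n - 1 by omega)
    rw [hc, pow_add, h0, zero_mul]
  · intro i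
    obtain ⟨δ, hδ, hδ0, g, hg, c, hc, hx⟩ := hrefl i
    refine ⟨⟨δ, hδ⟩, fun h0 => hδ0 (congrArg Subtype.val h0), ⟨g, hg⟩, c, hc, fun x => ?_⟩
    exact Subtype.ext (hx x x.2)
  · intro i
    rfl
  · intro i
    exact hσ i
  · intro i h0
    apply hne' i
    rw [h0, sub_self, zero_pow (by omega)]
  · intro i j hij θ
    obtain ⟨s, hs, h⟩ := hpair i j hij θ
    exact ⟨⟨s, hs⟩, h⟩

/-- The action of a rank one reflection. -/
theorem refl_form {W : Type} [AddCommGroup W] [Module K W] {O : W →ₗ[K] W →ₗ[K] K}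
    {E : Submodule K W} {g : End K W} {δ : W} (hδ : δ ∈ E) (hδ0 : δ ≠ 0)
    (hs : ∀ x y, O x y = O y x) (hnd : ∀ u ∈ E, (∀ v ∈ E, O u v = 0) → u = 0)
    (hg : ∀ u v, O (g u) (g v) = O u v) (hgδ : g δ = -δ)
    (hx : ∀ x ∈ E, ∃ c : K, g x = x + c • δ) :
    ∃ c : K, c ≠ 0 ∧ ∀ x ∈ E, g x = x + (c * O δ x) • δ := by
  have h1 : ∀ x ∈ E, ∀ c : K, g x = x + c • δ → c * O δ δ = -(2 * O δ x) := by
    intro x hx' c hc
    have h2 := hg x δ
    rw [hc, hgδ, map_neg, map_add, LinearMap.add_apply, map_smul, LinearMap.smul_apply,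
      smul_eq_mul, hs x δ] at h2
    linear_combination -h2
  have h0 : O δ δ ≠ 0 := by
    intro h0
    apply hδ0
    refine hnd δ hδ fun v hv => ?_
    obtain ⟨c, hc⟩ := hx v hv
    have h2 := h1 v hv c hc
    rw [h0, mul_zero] at h2
    have h3 : (2 : K) * O δ v = 0 := by linear_combination h2
    exact (mul_eq_zero.1 h3).resolve_left two_ne_zero
  refine ⟨-(2 * (O δ δ)⁻¹), neg_ne_zero.2 (mul_ne_zero two_ne_zero (inv_ne_zero h0)), fun x hx' => ?_⟩
  obtain ⟨c, hc⟩ := hx x hx'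
  have h2 := h1 x hx' c hc
  rw [hc]
  congr 2
  field_simp
  linear_combination h2

end abs

end

end Pool.Agent.Zk13.Ro
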