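import Mathlib
import Pool.Agent.Zk13.Ro.SumO

/-!
# The Lie algebra over the extension field for orthogonal members
-/

set_option autoImplicit false
set_option linter.unusedSectionVars false
set_option linter.unusedVariables false

namespace Pool.Agent.Zk13.Ro

open Module Polynomial TensorProduct Pool.Agent.Zk13.Uni Pool.Agent.Y114.MU Pool.Agent.Y114.TF
  Pool.Agent.H204R3.GP Pool.Agent.Zk13 Pool.Agent.Zk13.Rm

noncomputable section

section member

variable {F : Type} [Field F] [CharZero F] {V : Type} [AddCommGroup V] [Module F V]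
  [FiniteDimensional F V] {M : Type} [AddCommGroup M] [Module F M] {Γ : Type} [Group Γ] {n : ℕ}
  {K : Type} [Field K] [CharZero K] [Algebra F K] [IsAlgClosed K] [IsGalois F K]

/-- The data of a member. -/
structure OMem (K : Type) [Field K] [CharZero K] [Algebra F K] [IsAlgClosed K] (p : F[X]) (n : ℕ)
    (G : Subgroup Γ) (ρ : Representation F Γ V) (σ : Representation F Γ M)
    (ω : V →ₗ[F] V →ₗ[F] F) (a : End F V) : Prop where
  monic : p.Monic
  sep : p.Separable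
  deg : 0 < p.natDegree
  rank : 3 ≤ n
  dim : finrank F V = n * p.natDegree
  root : aeval a p = 0
  sym : ∀ u v, ω u v = (1 : F) * ω v u
  nondeg : ∀ x, (∀ y, ω x y = 0) → x = 0
  bil : ∀ u v, ω (a u) v = ω u (a v)
  sim : ∀ s ∈ G, ∀ u v, ω (ρ s u) (ρ s v) = ω u v
  comm : ∀ s ∈ G, ρ s * a = a * ρ s
  mum : ∃ τ ∈ G, σ τ = 1 ∧ IsNilpotent (ρ τ - 1) ∧
    ∃ x, Rm.Full p.natDegree a (((ρ τ - 1) ^ (n - 1)) x)
  refl : ∃ γ ∈ G, IsCoefReflection p.natDegree a (ρ γ)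
  irr : ∀ (z : RT p K) (U : Submodule K (K ⊗[F] V)), U ≤ Es (bE K a) (z : K) →
    (∀ s ∈ G, ∀ x ∈ U, rK K ρ s x ∈ U) → U = ⊥ ∨ U = Es (bE K a) (z : K)
  conj : ∀ z z' : RT p K, z ≠ z' → ∃ g ∈ G,
    EigenDiffer (bE K a) (bE K (ρ g)) (z : K) (bE K a) (bE K (ρ g)) (z' : K)

variable {p : F[X]} {G : Subgroup Γ} {ρ : Representation F Γ V}
  {σ : Representation F Γ M} {ω : V →ₗ[F] V →ₗ[F] F} {a : End F V}

theorem sym_K {ω : V →ₗ[F] V →ₗ[F] F} (h : ∀ u v, ω u v = (1 : F) * ω v u) (x y : K ⊗[F] V) :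
    oK K ω x y = oK K ω y x := by
  have h1 := oK_sym h x y
  rwa [map_one, one_mul] at h1

theorem nd_KO (hm : OMem K p n G ρ σ ω a) (z : RT p K)
    {u : K ⊗[F] V} (hu : u ∈ Es (bE K a) (z : K))
    (h : ∀ v ∈ Es (bE K a) (z : K), oK K ω u v = 0) : u = 0 := by
  have hne := RT_nonempty (K := K) hm.sep hm.deg
  refine oK_nondeg hm.nondeg _ fun y => ?_
  rw [← sum_Pj (bE K a) (fun z : RT p K => (z : K)) RT_inj y, map_sum]
  refine Finset.sum_eq_zero fun z' _ => ?_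
  have h3 := Pj_mem (bE K a) (fun z : RT p K => (z : K))
    (bE_root (K := K) hm.root hm.monic hm.sep) z' y
  by_cases hz : z' = z
  · subst hz
    exact h _ h3
  · exact bil_zero hm.bil (fun h => hz (Subtype.ext h).symm) hu h3

theorem PRm (hm : OMem K p n G ρ σ ω a) (z : RT p K) (y : K ⊗[F] V) :
    PR' K p a z y ∈ Es (bE K a) (z : K) := by
  have hne : Nonempty (RT p K) := ⟨z⟩
  exact Pj_mem (bE K a) (fun z : RT p K => (z : K))
    (bE_root (K := K) hm.root hm.monic hm.sep) z y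

/-- The reflection on an eigenspace. -/
theorem refl_K (hm : OMem K p n G ρ σ ω a) (z : RT p K) :
    ∃ δ ∈ Es (bE K a) (z : K), δ ≠ 0 ∧ ∃ g ∈ G, ∃ c : K, c ≠ 0 ∧
      ∀ x ∈ Es (bE K a) (z : K), rK K ρ g x = x + (c * oK K ω δ x) • δ := by
  obtain ⟨γ, hγ, δ, hδ, hγδ, hγx⟩ := hm.refl
  have hne : Nonempty (RT p K) := ⟨z⟩
  set e : K ⊗[F] V := PR' K p a z ((1 : K) ⊗ₜ[F] δ) with he
  have hem : e ∈ Es (bE K a) (z : K) := PRm hm z _
  have he0 : e ≠ 0 := comp_ne (K := K) hm.sep hm.deg hδ z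
  have hga : bE K (ρ γ) * bE K a = bE K a * bE K (ρ γ) := bE_comm' (K := K) (hm.comm γ hγ)
  have hge : rK K ρ γ e = -e := by
    rw [rK_apply, he, ← PR_comm hga z, bE_one, hγδ, TensorProduct.tmul_neg, map_neg]
  refine ⟨e, hem, he0, γ, hγ, ?_⟩
  refine refl_form (O := oK K ω) hem he0 (sym_K hm.sym) (fun u hu h => nd_KO hm z hu h) ?_ hge ?_
  · intro u v
    exact oK_inv (hm.sim γ hγ) u v
  · intro x hx
    set S : Submodule K (K ⊗[F] V) := Submodule.span K (Set.range fun i : ℕ =>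
      (1 : K) ⊗ₜ[F] (a ^ i) δ) with hS
    let g : End K (K ⊗[F] V) := rK K ρ γ - 1
    have h2' : ∀ y : K ⊗[F] V, g y ∈ S := by
      intro y
      induction y using TensorProduct.induction_on with
      | zero => rw [map_zero]; exact S.zero_mem
      | tmul b y =>
        have h3 : (b ⊗ₜ[F] y : K ⊗[F] V) = b • (1 ⊗ₜ[F] y) := by
          rw [TensorProduct.smul_tmul', smul_eq_mul, mul_one]
        have h4 : g (1 ⊗ₜ[F] y) = 1 ⊗ₜ[F] (ρ γ y - y) := by
          rw [TensorProduct.tmul_sub]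
          rfl
        rw [h3, map_smul, h4]
        apply S.smul_mem
        refine Submodule.span_induction (p := fun y _ => (1 : K) ⊗ₜ[F] y ∈ S) ?_ ?_ ?_ ?_ (hγx y)
        · rintro _ ⟨i, rfl⟩
          exact Submodule.subset_span ⟨i, rfl⟩
        · rw [TensorProduct.tmul_zero]
          exact S.zero_mem
        · intro y y' _ _ h4 h5
          rw [TensorProduct.tmul_add]
          exact S.add_mem h4 h5
        · intro b y _ h4
          rw [TensorProduct.tmul_smul, ← algebraMap_smul K b]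
          exact S.smul_mem _ h4
      | add y y' h3 h4 =>
        rw [map_add]
        exact S.add_mem h3 h4
    have h2 : ∀ y : K ⊗[F] V, rK K ρ γ y - y ∈ S := h2'
    have h3 : ∀ y ∈ S, ∃ l : K, PR' K p a z y = l • e := by
      intro y hy
      refine Submodule.span_induction (p := fun y _ => ∃ l : K, PR' K p a z y = l • e)
        ?_ ?_ ?_ ?_ hy
      · rintro _ ⟨i, rfl⟩
        have h3 : bE K (a ^ i) * bE K a = bE K a * bE K (a ^ i) :=
          bE_comm' (K := K) ((Commute.refl a).pow_left i).eq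
        have h4 := aeval_eig ((mem_Es _).1 hem) (X ^ i)
        rw [map_pow, aeval_X, ← bE_pow] at h4
        refine ⟨eval (z : K) (X ^ i), ?_⟩
        change PR' K p a z ((1 : K) ⊗ₜ[F] (a ^ i) δ) = _
        rw [← bE_one, PR_comm h3, ← he, h4]
      · exact ⟨0, by rw [map_zero, zero_smul]⟩
      · rintro y y' _ _ ⟨l, hl⟩ ⟨l', hl'⟩
        exact ⟨l + l', by rw [map_add, hl, hl', add_smul]⟩
      · rintro b y _ ⟨l, hl⟩
        exact ⟨b * l, by rw [map_smul, hl, smul_smul]⟩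
    have h4 : rK K ρ γ x - x ∈ Es (bE K a) (z : K) := by
      refine Submodule.sub_mem _ ?_ hx
      exact map_EsN hga x hx
    obtain ⟨l, hl⟩ := h3 _ (h2 x)
    have h5 : PR' K p a z (rK K ρ γ x - x) = rK K ρ γ x - x :=
      Pj_self (bE K a) (fun z : RT p K => (z : K)) RT_inj h4
    exact ⟨l, by rw [← hl, h5, add_sub_cancel]⟩

end member

variable {F : Type} [Field F] [CharZero F] {κ : Type} [Fintype κ]
  {V : κ → Type} [∀ x, AddCommGroup (V x)] [∀ x, Module F (V x)] [∀ x, FiniteDimensional F (V x)]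
  {M : Type} [AddCommGroup M] [Module F M] {Γ : Type} [Group Γ] {n : ℕ}
  {K : Type} [Field K] [CharZero K] [Algebra F K] [IsAlgClosed K] [IsGalois F K]
  {p : κ → F[X]} {G : Subgroup Γ} {ρ : ∀ x, Representation F Γ (V x)}
  {σ : Representation F Γ M} {ω : ∀ x, V x →ₗ[F] V x →ₗ[F] F} {a : ∀ x, End F (V x)}

theorem Vi_stableO (hm : ∀ x, OMem K (p x) n G (ρ x) σ (ω x) (a x)) (i : Σ x, RT (p x) K) :
    ∀ s ∈ G, ∀ x ∈ Vi K p a i, rK K (ρ i.1) s x ∈ Vi K p a i := by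
  intro s hs x hx
  exact map_EsN (bE_comm' (K := K) ((hm i.1).comm s hs)) x hx

theorem Vi_finrank (hm : ∀ x, OMem K (p x) n G (ρ x) σ (ω x) (a x)) (i : Σ x, RT (p x) K) :
    finrank K ↥(Vi K p a i) = n := by
  obtain ⟨τ, hτG, hτσ, hτn, hτf⟩ := (hm i.1).mum
  have hfa : (ρ i.1 τ - 1) * a i.1 = a i.1 * (ρ i.1 τ - 1) := by
    rw [sub_mul, mul_sub, (hm i.1).comm _ hτG, one_mul, mul_one]
  have h1 : finrank K ↥(Vi K p a i) = n - 1 + 1 :=
    (reg_K (K := K) (hm i.1).monic (hm i.1).sep (hm i.1).deg (hm i.1).root hfa hτn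
      (by have := (hm i.1).rank; omega) (hm i.1).dim hτf i.2).dim
  have := (hm i.1).rank
  omega

/-- **The Lie algebra of the sum over the extension field.** -/
theorem lie_K [DecidableEq (Σ x, RT (p x) K)]
    (hm : ∀ x, OMem K (p x) n G (ρ x) σ (ω x) (a x))
    (hsep : ∀ x y, x ≠ y → ∀ (z : RT (p x) K) (z' : RT (p y) K),
      (∃ g ∈ G, EigenDiffer (bE K (a x)) (bE K (ρ x g)) (z : K) (bE K (a y)) (bE K (ρ y g))
        (z' : K)) ∨
      ∃ g ∈ G, EigenDiffer (bE K (a y)) (bE K (ρ y g)) (z' : K) (bE K (a x)) (bE K (ρ x g))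
        (z : K)) (hn : 3 ≤ n) :
    ∀ i : Σ x, RT (p x) K, ∀ X ∈ SpL ((oK K (ω i.1)).compl₁₂ (Vi K p a i).subtype
        (Vi K p a i).subtype),
      piE (V := fun i : Σ x, RT (p x) K => ↥(Vi K p a i)) (Pi.single i X) ∈
        lieM (V := fun i : Σ x, RT (p x) K => ↥(Vi K p a i))
          (fun i => resR (rK K (ρ i.1)) G (Vi K p a i) (Vi_stableO hm i))
          ((rK K σ).comp G.subtype : Representation K G (K ⊗[F] M)) := by
  classical
  choose τ hτG hτσ hτn hτf using fun x => (hm x).mum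
  have hfa : ∀ x, (ρ x (τ x) - 1) * a x = a x * (ρ x (τ x) - 1) := by
    intro x
    rw [sub_mul, mul_sub, (hm x).comm _ (hτG x), one_mul, mul_one]
  have hbp : ∀ (x : κ) (s : Γ) (j : ℕ), (rK K (ρ x) s - 1) ^ j = bE K ((ρ x s - 1) ^ j) := by
    intro x s j
    rw [bE_pow, bE_sub, bE_id, rK_apply]
  refine sum_subO (W := fun i : Σ x, RT (p x) K => K ⊗[F] V i.1)
    (fun i => rK K (ρ i.1)) G (Vi K p a) (Vi_stableO hm)
    (rK K σ) (fun i => oK K (ω i.1)) hn (Vi_finrank hm) ?_ ?_ ?_ ?_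
    (fun i => τ i.1) (fun i => hτG i.1) ?_ ?_ ?_ ?_ ?_
  · intro i x y
    exact sym_K (hm i.1).sym x y
  · intro i u hu h
    exact nd_KO (hm i.1) i.2 hu h
  · intro i s hs u v
    exact oK_inv ((hm i.1).sim s hs) u v
  · intro i U hU h
    exact (hm i.1).irr i.2 U hU h
  · intro i
    rw [rK_apply, hτσ, bE_id]
  · intro i
    obtain ⟨j, hj⟩ := hτn i.1
    exact ⟨j, by rw [hbp, hj, bE_zero]⟩
  · intro i
    obtain ⟨x, hx⟩ := hτf i.1
    have h4 := comp_ne (K := K) (hm i.1).sep (hm i.1).deg hx i.2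
    refine ⟨PR' K (p i.1) (a i.1) i.2 ((1 : K) ⊗ₜ[F] x), PRm (hm i.1) i.2 _, ?_⟩
    rw [hbp, ← PR_comm (K := K) (p := p i.1) (bE_comm' (K := K)
      (show (ρ i.1 (τ i.1) - 1) ^ (n - 1) * a i.1 = a i.1 * (ρ i.1 (τ i.1) - 1) ^ (n - 1)
        from (show Commute (ρ i.1 (τ i.1) - 1) (a i.1) from hfa i.1).pow_left (n - 1))) i.2,
      bE_one]
    exact h4
  · rintro ⟨x, z⟩ ⟨y, z'⟩ hij θ
    by_cases hxy : x = y
    · subst hxy
      have hz : z ≠ z' := fun h => hij (by rw [h])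
      obtain ⟨g, hg, hdf⟩ := (hm x).conj z z' hz
      refine ⟨g, hg, fun ε hε => ?_⟩
      exact pair_of θ rfl rfl (Vi_stableO hm ⟨x, z⟩ g hg) (Vi_stableO hm ⟨x, z'⟩ g hg) hdf ε hε
    · rcases hsep x y hxy z z' with ⟨g, hg, hdf⟩ | ⟨g, hg, hdf⟩
      · refine ⟨g, hg, fun ε hε => ?_⟩
        exact pair_of θ rfl rfl (Vi_stableO hm ⟨x, z⟩ g hg) (Vi_stableO hm ⟨y, z'⟩ g hg)
          hdf ε hε
      · refine ⟨g, hg, fun ε hε => ?_⟩
        exact pair_of' θ rfl rfl (Vi_stableO hm ⟨x, z⟩ g hg) (Vi_stableO hm ⟨y, z'⟩ g hg)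
          hdf ε hε
  · intro i
    exact refl_K (hm i.1) i.2

end

end Pool.Agent.Zk13.Ro
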