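import Mathlib
import Pool.Agent.Zk13.Ro.SumK

/-!
# Alternating forms with values in the extension field
-/

set_option autoImplicit false
set_option linter.unusedSectionVars false
set_option linter.unusedVariables false

namespace Pool.Agent.Zk13.Ro

open Module Polynomial TensorProduct Pool.Agent.Zk13.Uni Pool.Agent.Y114.MU Pool.Agent.Y114.TF
  Pool.Agent.H204R3.GP Pool.Agent.Zk13 Pool.Agent.Zk13.Rm

noncomputable section

section split

variable {F : Type} [Field F] {K : Type} [Field K] [Algebra F K] {V : Type} [AddCommGroup V]
  [Module F V] [FiniteDimensional F V] {n : ℕ}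

/-- An alternating form with values in the extension field is a combination of alternating forms. -/
theorem split_alt (D : V [⋀^Fin n]→ₗ[F] K) :
    ∃ (N : ℕ) (θ : Fin N → K) (g : Fin N → V [⋀^Fin n]→ₗ[F] F),
      (∀ v, D v = ∑ j, algebraMap F K (g j v) * θ j) ∧
      ∀ (c : F) (v v' : Fin n → V), D v = algebraMap F K c * D v' → ∀ j, g j v = c * g j v' := by
  classical
  let c := Module.finBasis F V
  let W : Submodule F K := Submodule.span F (Set.range fun I : Fin n → Fin (finrank F V) =>
    D fun t => c (I t))
  have hfin : FiniteDimensional F W := FiniteDimensional.span_of_finite F (Set.finite_range _)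
  have h1 : W.mkQ.compAlternatingMap D = 0 := by
    refine Basis.ext_alternating c fun I _ => ?_
    rw [LinearMap.compAlternatingMap_apply, AlternatingMap.zero_apply, Submodule.mkQ_apply,
      Submodule.Quotient.mk_eq_zero]
    exact Submodule.subset_span ⟨I, rfl⟩
  have hW : ∀ v, D v ∈ W := by
    intro v
    have h2 := congrArg (fun f : V [⋀^Fin n]→ₗ[F] (K ⧸ W) => f v) h1
    have h3 : W.mkQ (D v) = 0 := h2
    rwa [Submodule.mkQ_apply, Submodule.Quotient.mk_eq_zero] at h3
  let D' := D.codRestrict W hW
  let bW := Module.finBasis F W
  have hD' : ∀ v, ((D' v : W) : K) = D v := fun v => rfl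
  refine ⟨finrank F W, fun j => (bW j : K), fun j => (bW.coord j).compAlternatingMap D', ?_, ?_⟩
  · intro v
    have h2 := bW.sum_repr (D' v)
    have h3 := congrArg (fun x : W => (x : K)) h2
    rw [← hD' v, ← h3]
    simp only [AddSubmonoidClass.coe_finsetSum, Submodule.coe_smul]
    refine Finset.sum_congr rfl fun j _ => ?_
    rw [Algebra.smul_def]
    rfl
  · intro a v v' h j
    have h2 : D' v = a • D' v' := by
      apply Subtype.ext
      rw [Submodule.coe_smul, hD', hD', h, Algebra.smul_def]
    rw [LinearMap.compAlternatingMap_apply, LinearMap.compAlternatingMap_apply, h2, map_smul,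
      smul_eq_mul]

end split

section det

variable {F : Type} [Field F] {K : Type} [Field K] [Algebra F K] {V : Type} [AddCommGroup V]
  [Module F V] {E : Type} [AddCommGroup E] [Module K E] [Module F E] [IsScalarTower F K E] {n : ℕ}

/-- the determinant of the components -/
def DD (Q : V →ₗ[F] E) (b : Basis (Fin n) K E) : V [⋀^Fin n]→ₗ[F] K where
  toFun v := b.det fun t => Q (v t)
  map_update_add' := by
    intro inst v i x y
    have h : ∀ z : V, (fun t => Q (Function.update v i z t)) =
        Function.update (fun t => Q (v t)) i (Q z) := by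
      intro z
      funext t
      by_cases ht : t = i
      · subst ht
        rw [Function.update_self, Function.update_self]
      · rw [Function.update_of_ne ht, Function.update_of_ne ht]
    rw [h, h, h, map_add, AlternatingMap.map_update_add]
  map_update_smul' := by
    intro inst v i c x
    have h : ∀ z : V, (fun t => Q (Function.update v i z t)) =
        Function.update (fun t => Q (v t)) i (Q z) := by
      intro z
      funext t
      by_cases ht : t = i
      · subst ht
        rw [Function.update_self, Function.update_self]
      · rw [Function.update_of_ne ht, Function.update_of_ne ht]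
    rw [h, h, map_smul, ← algebraMap_smul K c (Q x), AlternatingMap.map_update_smul, smul_eq_mul,
      Algebra.smul_def]
  map_eq_zero_of_eq' := by
    intro v i j hij hne
    exact b.det.map_eq_zero_of_eq _ (by rw [hij]) hne

theorem DD_apply (Q : V →ₗ[F] E) (b : Basis (Fin n) K E) (v : Fin n → V) :
    DD Q b v = b.det fun t => Q (v t) := rfl

theorem DD_eig {Q : V →ₗ[F] E} {b : Basis (Fin n) K E} {a : V → V} {z : K}
    (h : ∀ v, Q (a v) = z • Q v) (v : Fin n → V) (i : Fin n) :
    DD Q b (Function.update v i (a (v i))) = z * DD Q b v := by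
  rw [DD_apply, DD_apply]
  have h1 : (fun t => Q (Function.update v i (a (v i)) t)) =
      Function.update (fun t => Q (v t)) i (z • Q (v i)) := by
    funext t
    by_cases ht : t = i
    · subst ht
      rw [Function.update_self, Function.update_self, h]
    · rw [Function.update_of_ne ht, Function.update_of_ne ht]
  rw [h1, AlternatingMap.map_update_smul, Function.update_eq_self, smul_eq_mul]

theorem DD_det {Q : V →ₗ[F] E} {b : Basis (Fin n) K E} {g : V → V} {f : E →ₗ[K] E}
    (h : ∀ v, Q (g v) = f (Q v)) (v : Fin n → V) :
    DD Q b (fun t => g (v t)) = LinearMap.det f * DD Q b v := by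
  rw [DD_apply, DD_apply, ← Basis.det_comp]
  congr 1
  funext t
  exact h (v t)

end det

section sq

variable {K : Type} [Field K] {E : Type} [AddCommGroup E] [Module K E] {n : ℕ}

/-- The determinant of a similitude. -/
theorem det_sim (b : Basis (Fin n) K E) (O : E →ₗ[K] E →ₗ[K] K)
    (hnd : ∀ u, (∀ v, O u v = 0) → u = 0) {f : E →ₗ[K] E} {c : K}
    (h : ∀ u v, O (f u) (f v) = c * O u v) : LinearMap.det f ^ 2 = c ^ n := by
  classical
  obtain ⟨R, hR⟩ := Pool.Agent.Zk13.exists_inverse b O hnd
  set Q : Matrix (Fin n) (Fin n) K := Matrix.of fun x y => O (b x) (b y) with hQ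
  set A := LinearMap.toMatrix b b f with hA
  have h1 : A.transpose * Q * A = c • Q := by
    ext i j
    have h2 : ∀ j, f (b j) = ∑ k, A k j • b k := by
      intro j
      rw [hA]
      have := (b.sum_repr (f (b j))).symm
      simpa [LinearMap.toMatrix_apply] using this
    have h3 : (A.transpose * Q * A) i j = O (f (b i)) (f (b j)) := by
      rw [h2 i, h2 j]
      simp only [map_sum, LinearMap.sum_apply, map_smul, LinearMap.smul_apply, smul_eq_mul,
        Matrix.mul_apply, Matrix.transpose_apply, hQ, Matrix.of_apply]
      refine Finset.sum_congr rfl fun k _ => ?_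
      rw [Finset.sum_mul]
      rw [Finset.mul_sum]
      refine Finset.sum_congr rfl fun l _ => ?_
      ring
    rw [h3, h, Matrix.smul_apply, smul_eq_mul]
    rfl
  have h2 := congrArg Matrix.det h1
  rw [Matrix.det_mul, Matrix.det_mul, Matrix.det_transpose, Matrix.det_smul, Fintype.card_fin] at h2
  have h3 : Q.det ≠ 0 := by
    have h4 := congrArg Matrix.det hR
    rw [Matrix.det_mul, Matrix.det_one] at h4
    exact left_ne_zero_of_mul (by rw [h4]; exact one_ne_zero)
  have h4 : A.det = LinearMap.det f := LinearMap.det_toMatrix b f
  rw [h4] at h2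
  have h5 : (LinearMap.det f ^ 2 - c ^ n) * Q.det = 0 := by linear_combination h2
  exact sub_eq_zero.1 ((mul_eq_zero.1 h5).resolve_right h3)

end sq

end

end Pool.Agent.Zk13.Ro
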