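import Mathlib
import Pool.Agent.Zk13.Ro.Alt
import Pool.Agent.Zk13.Rm.DescR

/-!
# Tate classes of sums of orthogonal members: descent from the extension field
-/

set_option autoImplicit false
set_option linter.unusedSectionVars false
set_option linter.unusedVariables false

namespace Pool.Agent.Zk13.Ro

open Module Polynomial TensorProduct Pool.Agent.Zk13.Uni Pool.Agent.Y114.MU Pool.Agent.Y114.TF
  Pool.Agent.H204R3.GP Pool.Agent.Zk13 Pool.Agent.Zk13.Rm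

noncomputable section

variable {F : Type} [Field F] [CharZero F] {κ : Type} [Fintype κ]
  {V : κ → Type} [∀ x, AddCommGroup (V x)] [∀ x, Module F (V x)] [∀ x, FiniteDimensional F (V x)]
  {M : Type} [AddCommGroup M] [Module F M] {Γ : Type} [Group Γ] {n : ℕ}
  {K : Type} [Field K] [CharZero K] [Algebra F K] [IsAlgClosed K] [IsGalois F K]
  {p : κ → F[X]} {G : Subgroup Γ} {ρ : ∀ x, Representation F Γ (V x)}
  {σ : Representation F Γ M} {ω : ∀ x, V x →ₗ[F] V x →ₗ[F] F} {a : ∀ x, End F (V x)}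

/-- the component of a vector in an eigenspace -/
def Qi (hr : ∀ x, aeval (a x) (p x) = 0) (hm : ∀ x, (p x).Monic) (hs : ∀ x, (p x).Separable)
    (i : Σ x, RT (p x) K) : V i.1 →ₗ[F] ↥(Vi K p a i) where
  toFun v := ⟨PR' K (p i.1) (a i.1) i.2 ((1 : K) ⊗ₜ[F] v),
    Pj_mem (bE K (a i.1)) (fun z : RT (p i.1) K => (z : K))
      (bE_root (K := K) (hr i.1) (hm i.1) (hs i.1)) i.2 _⟩
  map_add' u v := Subtype.ext (by
    show PR' K (p i.1) (a i.1) i.2 ((1 : K) ⊗ₜ[F] (u + v)) = _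
    rw [TensorProduct.tmul_add, map_add]
    rfl)
  map_smul' c v := Subtype.ext (by
    show PR' K (p i.1) (a i.1) i.2 ((1 : K) ⊗ₜ[F] (c • v)) =
      c • PR' K (p i.1) (a i.1) i.2 ((1 : K) ⊗ₜ[F] v)
    rw [TensorProduct.tmul_smul, ← algebraMap_smul K c, map_smul, algebraMap_smul])

theorem Qi_coe (hr : ∀ x, aeval (a x) (p x) = 0) (hm : ∀ x, (p x).Monic)
    (hs : ∀ x, (p x).Separable) (i : Σ x, RT (p x) K) (v : V i.1) :
    ((Qi (K := K) hr hm hs i v : ↥(Vi K p a i)) : K ⊗[F] V i.1) =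
      PR' K (p i.1) (a i.1) i.2 ((1 : K) ⊗ₜ[F] v) := rfl

theorem Qi_eig (hr : ∀ x, aeval (a x) (p x) = 0) (hm : ∀ x, (p x).Monic)
    (hs : ∀ x, (p x).Separable) (i : Σ x, RT (p x) K) (v : V i.1) :
    Qi (K := K) hr hm hs i (a i.1 v) = (i.2 : K) • Qi (K := K) hr hm hs i v := by
  apply Subtype.ext
  rw [Submodule.coe_smul, Qi_coe, Qi_coe, ← bE_one, PR_comm (K := K) (p := p i.1) rfl i.2]
  exact (mem_Es _).1 (Qi (K := K) hr hm hs i v).2

theorem Qi_map (hr : ∀ x, aeval (a x) (p x) = 0) (hm : ∀ x, (p x).Monic)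
    (hs : ∀ x, (p x).Separable) (i : Σ x, RT (p x) K) {g : End F (V i.1)}
    (hg : g * a i.1 = a i.1 * g)
    (hst : ∀ x ∈ Vi K p a i, bE K g x ∈ Vi K p a i) (v : V i.1) :
    Qi (K := K) hr hm hs i (g v) = (bE K g).restrict hst (Qi (K := K) hr hm hs i v) := by
  apply Subtype.ext
  rw [Qi_coe, ← bE_one, PR_comm (K := K) (p := p i.1) (bE_comm' (K := K) hg) i.2]
  rfl

/-- products of forms and determinants -/
def prO (n : ℕ) (ρ : ∀ x, Representation F Γ (V x)) (ω : ∀ x, V x →ₗ[F] V x →ₗ[F] F)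
    (a : ∀ x, End F (V x)) (G' : Subgroup Γ) (d : κ → Γ → F) (m : ℕ) :
    Set ((Fin m → ∀ x, V x) → F) :=
  {f | ∃ (r b : ℕ) (e : (Fin r × Fin 2) ⊕ (Fin b × Fin n) ≃ Fin m) (x : Fin r → κ)
    (i : Fin r → ℕ) (y : Fin b → κ) (g : ∀ j, V (y j) [⋀^Fin n]→ₗ[F] F),
    (∀ j, Balanced (a (y j)) (g j)) ∧
    (∀ j, ∀ s ∈ G', ∀ v, g j (fun t => ρ (y j) s (v t)) = d (y j) s * g j v) ∧
    ∀ v, f v = (∏ l, coefForm ω a (x l) (i l) (v (e (Sum.inl (l, 0)))) (v (e (Sum.inl (l, 1))))) *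
      ∏ j, g j fun t => v (e (Sum.inr (j, t))) (y j)}

/-- The generators. -/
theorem gen_O (hm1 : ∀ x, (p x).Monic) (hs : ∀ x, (p x).Separable)
    (hr : ∀ x, aeval (a x) (p x) = 0) (hb : ∀ x u v, ω x (a x u) v = ω x u (a x v))
    (bs : ∀ i : Σ x, RT (p x) K, Basis (Fin n) K ↥(Vi K p a i)) {G' : Subgroup Γ}
    {d : κ → Γ → F}
    (hdet : ∀ i : Σ x, RT (p x) K, ∀ s ∈ G', ∀ v : Fin n → V i.1,
      DD (Qi (K := K) hr hm1 hs i) (bs i) (fun t => ρ i.1 s (v t)) =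
        algebraMap F K (d i.1 s) * DD (Qi (K := K) hr hm1 hs i) (bs i) v)
    (p₀ : K →ₗ[F] F) {m r b : ℕ} (e : (Fin r × Fin 2) ⊕ (Fin b × Fin n) ≃ Fin m)
    (u : Fin r → Σ x, RT (p x) K) (y : Fin b → Σ x, RT (p x) K) (z : K ⊗[F] M) :
    (fun v : Fin m → ∀ x, V x => pM p₀ (((∏ l, oK K (ω (u l).1)
      (PR' K (p (u l).1) (a (u l).1) (u l).2 ((1 : K) ⊗ₜ[F] v (e (Sum.inl (l, 0))) (u l).1))
      (PR' K (p (u l).1) (a (u l).1) (u l).2 ((1 : K) ⊗ₜ[F] v (e (Sum.inl (l, 1))) (u l).1))) *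
      ∏ j, DD (Qi (K := K) hr hm1 hs (y j)) (bs (y j))
        fun t => v (e (Sum.inr (j, t))) (y j).1) • z)) ∈
      Submodule.span F {ψ | ∃ f ∈ prO n ρ ω a G' d m, ∃ z : M, ψ = fun v => f v • z} := by
  classical
  have hL : ∀ l, ∃ L : K[X], L.natDegree < Fintype.card (RT (p (u l).1) K) ∧
      PR' K (p (u l).1) (a (u l).1) (u l).2 = aeval (bE K (a (u l).1)) L := by
    intro l
    have hne : Nonempty (RT (p (u l).1) K) := ⟨(u l).2⟩
    obtain ⟨L, -, h1, h2⟩ := Pj_eq (bE K (a (u l).1)) (fun z : RT (p (u l).1) K => (z : K))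
      RT_inj (u l).2
    exact ⟨L, h1, h2⟩
  choose L hLd hL using hL
  choose N θ g hg hgs using fun j => split_alt (DD (Qi (K := K) hr hm1 hs (y j)) (bs (y j)))
  have h1 : (fun v : Fin m → ∀ x, V x => pM p₀ (((∏ l, oK K (ω (u l).1)
      (PR' K (p (u l).1) (a (u l).1) (u l).2 ((1 : K) ⊗ₜ[F] v (e (Sum.inl (l, 0))) (u l).1))
      (PR' K (p (u l).1) (a (u l).1) (u l).2 ((1 : K) ⊗ₜ[F] v (e (Sum.inl (l, 1))) (u l).1))) *
      ∏ j, DD (Qi (K := K) hr hm1 hs (y j)) (bs (y j))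
        fun t => v (e (Sum.inr (j, t))) (y j).1) • z)) =
      ∑ I ∈ Fintype.piFinset (fun l : Fin r => Finset.range (Fintype.card (RT (p (u l).1) K))),
      ∑ J ∈ Fintype.piFinset (fun j : Fin b => (Finset.univ : Finset (Fin (N j)))),
        fun v : Fin m → ∀ x, V x =>
        ((∏ l, coefForm ω a (u l).1 (I l) (v (e (Sum.inl (l, 0)))) (v (e (Sum.inl (l, 1))))) *
          ∏ j, g j (J j) fun t => v (e (Sum.inr (j, t))) (y j).1) •
          pM p₀ (((∏ l, (L l).coeff (I l)) * ∏ j, θ j (J j)) • z) := by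
    funext v
    rw [Finset.sum_apply]
    have h2 : ∀ l, oK K (ω (u l).1)
        (PR' K (p (u l).1) (a (u l).1) (u l).2 ((1 : K) ⊗ₜ[F] v (e (Sum.inl (l, 0))) (u l).1))
        (PR' K (p (u l).1) (a (u l).1) (u l).2 ((1 : K) ⊗ₜ[F] v (e (Sum.inl (l, 1))) (u l).1)) =
        ∑ i ∈ Finset.range (Fintype.card (RT (p (u l).1) K)), (L l).coeff i *
          algebraMap F K (coefForm ω a (u l).1 i (v (e (Sum.inl (l, 0))))
            (v (e (Sum.inl (l, 1))))) := by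
      intro l
      rw [form_comp (hm1 _) (hs _) (hr _) (hb _), hL l, oK_aeval (L l) (hLd l)]
      rfl
    rw [Finset.prod_congr rfl fun l _ => h2 l, Finset.prod_univ_sum,
      Finset.prod_congr rfl fun j _ => hg j _, Finset.prod_univ_sum, Finset.sum_mul,
      Finset.sum_smul, map_sum]
    refine Finset.sum_congr rfl fun I _ => ?_
    rw [Finset.sum_apply, Finset.mul_sum, Finset.sum_smul, map_sum]
    refine Finset.sum_congr rfl fun J _ => ?_
    rw [← (pM (M := M) p₀).map_smul, Finset.prod_mul_distrib, Finset.prod_mul_distrib,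
      ← map_prod, ← map_prod, ← algebraMap_smul K ((∏ l, coefForm ω a (u l).1 (I l)
        (v (e (Sum.inl (l, 0)))) (v (e (Sum.inl (l, 1))))) *
          ∏ j, g j (J j) fun t => v (e (Sum.inr (j, t))) (y j).1), map_mul]
    congr 1
    rw [smul_smul]
    congr 1
    ring
  rw [h1]
  refine Submodule.sum_mem _ fun I _ => Submodule.sum_mem _ fun J _ =>
    Submodule.subset_span ?_
  refine ⟨_, ⟨r, b, e, fun l => (u l).1, I, fun j => (y j).1, fun j => g j (J j), ?_, ?_,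
    fun v => rfl⟩, _, rfl⟩
  · intro j v i i'
    have h2 := hgs j 1 (Function.update v i (a (y j).1 (v i)))
      (Function.update v i' (a (y j).1 (v i'))) (by
        rw [map_one, one_mul, DD_eig (Qi_eig hr hm1 hs (y j)), DD_eig (Qi_eig hr hm1 hs (y j))]) (J j)
    rwa [one_mul] at h2
  · intro j s hs' v
    exact hgs j (d (y j).1 s) _ v (hdet (y j) s hs' v) (J j)

end

end Pool.Agent.Zk13.Ro
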