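import Mathlib
import Pool.Agent.Zk13.Ro.Desc

/-!
# Tate classes of sums of orthogonal members: descent from the extension field, second part
-/

set_option autoImplicit false
set_option linter.unusedSectionVars false
set_option linter.unusedVariables false

namespace Pool.Agent.Zk13.Ro

open Module Polynomial TensorProduct Pool.Agent.Zk13.Uni Pool.Agent.Y114.MU Pool.Agent.Y114.TF
  Pool.Agent.H204R3.GP Pool.Agent.Zk13 Pool.Agent.Zk13.Rm

noncomputable section

variable {F : Type} [Field F] [CharZero F] {κ : Type} [Fintype κ]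
  {V : κ → Type} [∀ x, AddCommGroup (V x)] [∀ x, Module F (V x)] [∀ x, FiniteDimensional F (V x)]
  {M : Type} [AddCommGroup M] [Module F M] {Γ : Type} [Group Γ] {n : ℕ}
  {K : Type} [Field K] [CharZero K] [Algebra F K] [IsAlgClosed K] [IsGalois F K]
  {p : κ → F[X]} {G : Subgroup Γ} {ρ : ∀ x, Representation F Γ (V x)}
  {σ : Representation F Γ M} {ω : ∀ x, V x →ₗ[F] V x →ₗ[F] F} {a : ∀ x, End F (V x)}

theorem exists_basis {K E : Type} [Field K] [AddCommGroup E] [Module K E] [FiniteDimensional K E]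
    {n : ℕ} (h : finrank K E = n) : Nonempty (Basis (Fin n) K E) :=
  ⟨Module.finBasisOfFinrankEq K E h⟩

/-- **Descent.** -/
theorem descend_O (hn : 3 ≤ n) (hm : ∀ x, OMem K (p x) n G (ρ x) σ (ω x) (a x))
    {χ : κ → Γ → F} (hχ : ∀ x s u v, ω x (ρ x s u) (ρ x s v) = χ x s * ω x u v)
    {G' : Subgroup Γ} (hGf : G'.FiniteIndex) (hGc : ∀ x, ∀ s ∈ G', ρ x s * a x = a x * ρ x s)
    {d : κ → Γ → F}
    (hd : ∀ (i : Σ x, RT (p x) K) (s : Γ) (h : ∀ x ∈ Vi K p a i, bE K (ρ i.1 s) x ∈ Vi K p a i),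
      s ∈ G' → LinearMap.det ((bE K (ρ i.1 s)).restrict h) = algebraMap F K (d i.1 s))
    (hsep : ∀ x y, x ≠ y → ∀ (z : RT (p x) K) (z' : RT (p y) K),
      (∃ g ∈ G, EigenDiffer (bE K (a x)) (bE K (ρ x g)) (z : K) (bE K (a y)) (bE K (ρ y g))
        (z' : K)) ∨
      ∃ g ∈ G, EigenDiffer (bE K (a y)) (bE K (ρ y g)) (z' : K) (bE K (a x)) (bE K (ρ x g))
        (z : K)) :
    OrthTateWith n ρ ω a σ := by
  classical
  intro m φ ⟨Δ, hΔ, hφ⟩
  obtain ⟨p₀, hp₀⟩ := exists_p₀ F K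
  set Φ : MultilinearMap K (fun _ : Fin m => ∀ i : Σ x, RT (p x) K, ↥(Vi K p a i)) (K ⊗[F] M) :=
    (mK K φ).compLinearMap fun _ => JJ K p a with hΦ
  have hΦa : ∀ w, Φ w = mK K φ (fun j => JJ K p a (w j)) := fun w => rfl
  have hr : ∀ x, aeval (a x) (p x) = 0 := fun x => (hm x).root
  have hm1 : ∀ x, (p x).Monic := fun x => (hm x).monic
  have hs : ∀ x, (p x).Separable := fun x => (hm x).sep
  have hdg : ∀ x, 0 < (p x).natDegree := fun x => (hm x).deg
  have hbs : ∀ i : Σ x, RT (p x) K, Nonempty (Basis (Fin n) K ↥(Vi K p a i)) := fun i =>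
    exists_basis (E := ↥(Vi K p a i)) (Vi_finrank hm i)
  let bs : ∀ i : Σ x, RT (p x) K, Basis (Fin n) K ↥(Vi K p a i) := fun i => (hbs i).some
  have h1 := fft_mapsO (V := fun i : Σ x, RT (p x) K => ↥(Vi K p a i))
    (fun i : Σ x, RT (p x) K =>
      (oK K (ω i.1)).compl₁₂ (Vi K p a i).subtype (Vi K p a i).subtype) bs
    (fun i u v => sym_K (hm i.1).sym _ _)
    (fun i u hu => Subtype.ext (nd_KO (hm i.1) i.2 u.2 fun v hv => hu ⟨v, hv⟩)) Φ
    (fun l i X hX => lie_K hm hsep hn i X hX m Φ ⟨Δ.subgroupOf G, inferInstance, by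
      intro s hs' w
      rw [hΦa, hΦa]
      have h2 : (fun j => JJ K p a (sumRep (V := fun i : Σ x, RT (p x) K => ↥(Vi K p a i))
          (fun i => resR (rK K (ρ i.1)) G (Vi K p a i) (Vi_stableO hm i)) s (w j))) =
          fun j => rK K (sumRep ρ) (s : Γ) (JJ K p a (w j)) :=
        funext fun j => JJ_equi (Vi_stableO hm) s (w j)
      rw [h2]
      exact mK_equi (hφ s (Subgroup.mem_subgroupOf.1 hs')) _⟩ l)
  have hst : ∀ (i : Σ x, RT (p x) K), ∀ s ∈ G', ∀ x ∈ Vi K p a i,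
      bE K (ρ i.1 s) x ∈ Vi K p a i := fun i s hs' x hx =>
    map_EsN (bE_comm' (K := K) (hGc i.1 s hs')) x hx
  have hdet : ∀ i : Σ x, RT (p x) K, ∀ s ∈ G', ∀ v : Fin n → V i.1,
      DD (Qi (K := K) hr hm1 hs i) (bs i) (fun t => ρ i.1 s (v t)) =
        algebraMap F K (d i.1 s) * DD (Qi (K := K) hr hm1 hs i) (bs i) v := by
    intro i s hs' v
    rw [← hd i s (hst i s hs') hs']
    exact DD_det (Qi_map hr hm1 hs i (hGc i.1 s hs') (hst i s hs')) v
  have h3 : ∀ Ψ : (Fin m → ∀ i : Σ x, RT (p x) K, ↥(Vi K p a i)) → K ⊗[F] M,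
      Ψ ∈ Submodule.span K
      {ψ : (Fin m → ∀ i : Σ x, RT (p x) K, ↥(Vi K p a i)) → K ⊗[F] M |
        ∃ f ∈ prd (V := fun i : Σ x, RT (p x) K => ↥(Vi K p a i)) (fun i : Σ x, RT (p x) K =>
          (oK K (ω i.1)).compl₁₂ (Vi K p a i).subtype (Vi K p a i).subtype) bs m,
        ∃ z : K ⊗[F] M, ψ = fun v => f v • z} →
      ∀ b : K, (fun v : Fin m → ∀ x, V x =>
        pM p₀ (b • Ψ fun j => QQ (K := K) hr hm1 hs (v j))) ∈
        Submodule.span F {ψ | ∃ f ∈ prO n ρ ω a G' d m, ∃ z : M, ψ = fun v => f v • z} := by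
    intro Ψ hΨ
    refine Submodule.span_induction (p := fun Ψ _ => ∀ b : K,
      (fun v : Fin m → ∀ x, V x => pM p₀ (b • Ψ fun j => QQ (K := K) hr hm1 hs (v j))) ∈
        Submodule.span F {ψ | ∃ f ∈ prO n ρ ω a G' d m, ∃ z : M, ψ = fun v => f v • z})
      ?_ ?_ ?_ ?_ hΨ
    · rintro Ψ ⟨f, ⟨A, X, e, u, hf⟩, z, rfl⟩ b
      let εX : X ≃ Fin (Fintype.card X) := Fintype.equivFin X
      let e' : (Fin A × Fin 2) ⊕ (Fin (Fintype.card X) × Fin n) ≃ Fin m :=
        (Equiv.sumCongr (Equiv.refl _) (Equiv.prodCongr εX.symm (Equiv.refl _))).trans e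
      have h4 := gen_O (M := M) (ω := ω) hm1 hs hr (fun x => (hm x).bil) bs hdet p₀ e' u
        (fun j => (εX.symm j : Σ x, RT (p x) K)) (b • z)
      convert h4 using 3 with v
      show b • (f (fun j => QQ (K := K) hr hm1 hs (v j)) • z) = _
      rw [hf]
      have h5 : (∏ i : X, (bs i).det fun t => QQ (K := K) hr hm1 hs (v (e (Sum.inr (i, t)))) i) =
          ∏ j : Fin (Fintype.card X), DD (Qi (K := K) hr hm1 hs (εX.symm j : Σ x, RT (p x) K))
            (bs (εX.symm j : Σ x, RT (p x) K))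
            fun t => v (e' (Sum.inr (j, t))) (εX.symm j : Σ x, RT (p x) K).1 :=
        (Equiv.prod_comp εX.symm fun i : X =>
          (bs i).det fun t => QQ (K := K) hr hm1 hs (v (e (Sum.inr (i, t)))) i).symm
      rw [h5]
      exact smul_comm b _ z
    · intro b
      have h4 : (fun v : Fin m → ∀ x, V x => pM p₀ (b •
          (0 : (Fin m → ∀ i : Σ x, RT (p x) K, ↥(Vi K p a i)) → K ⊗[F] M)
          fun j => QQ (K := K) hr hm1 hs (v j))) = 0 := by
        funext v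
        rw [Pi.zero_apply, smul_zero, map_zero]
        rfl
      rw [h4]
      exact Submodule.zero_mem _
    · intro Ψ Ψ' _ _ h4 h5 b
      have h6 : (fun v : Fin m → ∀ x, V x => pM p₀ (b • (Ψ + Ψ')
          fun j => QQ (K := K) hr hm1 hs (v j))) =
          (fun v : Fin m → ∀ x, V x => pM p₀ (b • Ψ fun j => QQ (K := K) hr hm1 hs (v j))) +
            fun v : Fin m → ∀ x, V x =>
              pM p₀ (b • Ψ' fun j => QQ (K := K) hr hm1 hs (v j)) := by
        funext v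
        rw [Pi.add_apply, Pi.add_apply, smul_add, map_add]
      rw [h6]
      exact Submodule.add_mem _ (h4 b) (h5 b)
    · intro c Ψ _ h4 b
      have h6 : (fun v : Fin m → ∀ x, V x => pM p₀ (b • (c • Ψ)
          fun j => QQ (K := K) hr hm1 hs (v j))) =
          (fun v : Fin m → ∀ x, V x => pM p₀ ((b * c) • Ψ
            fun j => QQ (K := K) hr hm1 hs (v j))) := by
        funext v
        rw [Pi.smul_apply, smul_smul]
      rw [h6]
      exact h4 _
  have h4 : (fun v => φ v) ∈ Submodule.span F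
      {ψ | ∃ f ∈ prO n ρ ω a G' d m, ∃ z : M, ψ = fun v => f v • z} := by
    have h4 := h3 _ h1 1
    convert h4 using 2 with v
    rw [one_smul, hΦa]
    have h5 : (fun j => JJ K p a (QQ (K := K) hr hm1 hs (v j))) = fun j => (1 : K) ⊗ₜ[F] v j :=
      funext fun j => JJ_QQ hr hm1 hs hdg (v j)
    rw [h5, mK_one, pM_tmul, hp₀, one_smul]
  have hform : ∀ s ∈ G', ∀ (x : κ) (i : ℕ) (u v : ∀ x, V x),
      coefForm ω a x i (sumRep ρ s u) (sumRep ρ s v) = χ x s * coefForm ω a x i u v := by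
    intro s hs' x i u v
    have h5 : (a x ^ i) (ρ x s (u x)) = ρ x s ((a x ^ i) (u x)) := by
      have h6 := ((show Commute (ρ x s) (a x) from hGc x s hs').pow_right i).eq
      exact (LinearMap.congr_fun h6 (u x)).symm
    show ω x ((a x ^ i) (ρ x s (u x))) (ρ x s (v x)) = χ x s * ω x ((a x ^ i) (u x)) (v x)
    rw [h5, hχ]
  have key : ∀ f ∈ prO n ρ ω a G' d m, ∃ c : ↥(Δ ⊓ G') → F, ∀ (s : ↥(Δ ⊓ G')) v,
      f (fun j => sumRep ρ (s : Γ) (v j)) = c s * f v := by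
    rintro f ⟨r, b, e, x, i, y, g, hg1, hg2, hf⟩
    refine ⟨fun s => (∏ l, χ (x l) (s : Γ)) * ∏ j, d (y j) (s : Γ), fun s v => ?_⟩
    have h6 : ∀ j, (g j fun t => sumRep ρ (s : Γ) (v (e (Sum.inr (j, t)))) (y j)) =
        d (y j) (s : Γ) * g j fun t => v (e (Sum.inr (j, t))) (y j) := fun j =>
      hg2 j s s.2.2 fun t => v (e (Sum.inr (j, t))) (y j)
    rw [hf, hf, Finset.prod_congr rfl fun l _ => hform s s.2.2 (x l) (i l) _ _,
      Finset.prod_congr rfl fun j _ => h6 j, Finset.prod_mul_distrib,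
      Finset.prod_mul_distrib]
    ring
  have h5 := Pol.extract' (k := F) (U := ↥(Δ ⊓ G')) (prO n ρ ω a G' d m)
    (fun s v j => sumRep ρ (s : Γ) (v j)) (fun s => σ (s : Γ)) key
    (fun v => φ v) h4 (fun s v => hφ s s.2.1 v)
  refine Submodule.span_mono ?_ h5
  rintro _ ⟨f, hf, z, hz, rfl⟩
  obtain ⟨c, hc⟩ := key f hf
  obtain ⟨r, b, e, x, i, y, g, hg1, hg2, hf⟩ := hf
  refine ⟨⟨Δ ⊓ G', inferInstance, fun s hs' v => ?_⟩, r, b, e, x, i, y, g, z, hg1, fun v => ?_⟩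
  · show f (fun j => sumRep ρ s (v j)) • z = σ s (f v • z)
    rw [map_smul, hz ⟨s, hs'⟩ (c ⟨s, hs'⟩) (hc ⟨s, hs'⟩), smul_smul, mul_comm,
      ← hc ⟨s, hs'⟩ v]
  · show f v • z = _
    rw [hf]

end

end Pool.Agent.Zk13.Ro
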