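import Pool.Agent.Zk13.Ro.Main

/-!
# The Tate conjecture for the members of families of orthogonal motives with coefficients in arbitrary fields, all of them together

Let `M j`, for `j` in a finite set `J`, be families of polarized pure motives of EVEN weight over `ℚ`, over
open subsets `U j` (the complements of the zeros of the binary forms `D j`) of the projective line. The
families are given by the `ℓ`-adic realizations of the members `M j t`, for all `ℓ`, and they may have
different weights `w j`, different bad prime numbers (the divisors of `m j`) and different algebras of
coefficients `E j = ℚ[x] / (P j)` (number fields, or products of number fields); the rank `n ≥ 3` over
`E j` is the same for all `j`. The polarizations are symmetric, and `E j` acts by operators which are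
self-adjoint. The action of `E j` need not be defined over `ℚ`: the Galois group may act on the algebra
`E j`. Suppose that, for all `j` (`OrthFamily`),

* at some closed point of the projective line (the zeros of a binary form) the local monodromy is
  maximally unipotent over `E j` (one Jordan block on every eigenspace of `E j`; so `n` is odd);
* at some closed point it contains a reflection over `E j` (a reflection on every eigenspace);
* if `E j ≠ ℚ`, at some closed point the local monodromies on the different eigenspaces of `E j` are
  different, also up to sign.

Examples: families of Calabi-Yau fourfolds with `h^{3,1} = 1` for which the transcendental part of the
middle cohomology has rank 5, with a point of maximally unipotent monodromy and an ordinary double point,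
for example the mirror family of the sextic fourfolds; and the hypergeometric motives `H(α, 0; t)` of odd
rank `n`, where `α` is a symmetric set (`α = -α`) of fractions, so that `1 / 2` is one of them: here `E` is
the totally real abelian field fixed by the `u` with `u α = α`, and the Galois group permutes the
conjugates `H(u α, 0; t)`. The algebra `E` may also be `ℚ ^ r`, where the Galois group permutes the
factors: so the theorem applies to the restrictions of scalars of families over number fields of degree
`r`, that is to the members at rational points of families of motives over number fields. These are
examples: the theorem is about the families which satisfy the conditions `OrthFamily`, and that a given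
geometric family does is part of the literature on this family, not of the Lean text.

Theorem. Let `B` be a finite set of prime numbers. There is a set `S` of rational points of the
projective line which contains 100 percent of the rational points, ordered by height, such that for ANY
finite set of members `M (j x) (t x)` with `t x` in `S` which are pairwise apart, EVERY prime number `ℓ` and
EVERY representation `σ` of the Galois group of `ℚ` on a vector space over `ℚ_ℓ` which is unramified
outside of `B` and `ℓ`:

* the sum of these members is a semisimple representation of all subgroups of finite index;
* all Tate classes, over all number fields, of all tensor products of `Z` and of members, are linear
  combinations of Tate classes which are products of the forms `ω x (a x ^ i u, v)`, where `ω x` is the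
  polarization and `a x` the generator of the coefficients of `M (j x) (t x)`, of alternating forms of `n`
  vectors of one member which are balanced for the coefficients (the determinants over `E j`, composed
  with linear maps from `E j`: these are the polarizations of the motives of rank one
  `Λ ^ n M (j x) (t x)`, the exterior power over `E j`, which are powers of the Tate motive over some
  number field), and of vectors of `Z`.

For `E = ℚ` see `FamiliesOfBothParities` (where all members belong to different points), and for
alternating polarizations `CoefficientFamilies`, where there are no determinants.

The members `M t` and `M' t'` are apart (`Apart`) if there are two prime numbers outside of the bad ones at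
which their local monodromies are different; or if they belong to different families, at the same point,
and the local monodromies of these two families are different at some closed point; or if they are
members of the same or of different families, at different points, and three rational points are special
for the two families: the local monodromy of one family at these points is different from the local
monodromy of the other family at all other points. For a single member there is nothing to verify.

The proof. (1) `Pool.Agent.Zk13.Rm.irr_E`: the eigenspaces of the coefficients are irreducible over the
algebraic closure for the group `G` of the elements which commute with the coefficients and on which the
cyclotomic character is trivial. (2) The Lie algebra of the sum of all eigenspaces of all members is the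
product of the orthogonal Lie algebras (`Pool.Agent.Zk13.Ro.sum_subO`, from the theorems of the library
on groups with reflections, and the lemma of Goursat, Kolchin and Ribet). (3) The first fundamental
theorem for the special orthogonal groups gives the Tate classes over the algebraic closure, and they
descend: the alternating forms over the algebraic closure on the eigenspaces are the balanced forms
(`Pool.Agent.Zk13.Ro.descend_O`). The elements of a subgroup of finite index act on the determinants of
the eigenspaces by a power of the cyclotomic character (`Pool.Agent.Zk13.Ro.sign_fin`; this uses the even
weight), so the products are Tate classes. (4) The sieve for the points and their primes
(`Pool.Agent.Zk13.almostAll_separated`).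
-/

set_option autoImplicit false

namespace Pool.Agent.Zk13.Ro.EvenCoefficientFamilies

open Polynomial Pool.Agent.Y114.TF Pool.Agent.N978.HP Pool.Agent.H204R3.GP Pool.Agent.Zk13
  Pool.Agent.Zk13.Ro

theorem result (J : Type) [Fintype J] [Nonempty J]
    -- the coefficients, weights, bad prime numbers and bad points of the families, and their rank
    (P : J → ℚ[X]) (n : ℕ) (w m : J → ℕ) (D : J → MvPolynomial (Fin 2) ℤ)
    -- the members of the families
    (M : ∀ j, Pt → OrthMotive (P j) n Gal(AlgebraicClosure ℚ/ℚ))
    (h : ∀ j, OrthFamily (M j) (w j) (m j) (D j)) (B : Finset ℕ) :
    ∃ S : Set Pt, AlmostAll (fun t => t ∈ S) ∧
      -- any finite set of members which are pairwise apart
      ∀ (κ : Type) [Fintype κ] (j : κ → J) (t : κ → Pt), (∀ x, t x ∈ S) →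
      (∀ x y, x ≠ y → Apart (M (j x)) (m (j x)) (D (j x)) (M (j y)) (m (j y)) (D (j y))
        (∏ i, m i) (t x) (t y)) →
      -- any prime number, and any representation which is unramified outside of `B`
      ∀ (ℓ : ℕ) [Fact ℓ.Prime] (Z : Type) [AddCommGroup Z] [Module ℚ_[ℓ] Z]
        (σ : Representation ℚ_[ℓ] Gal(AlgebraicClosure ℚ/ℚ) Z), UnramifiedOutside σ B →
      FiniteIndexSemisimple (sumRep fun x => (M (j x) (t x)).ρ ℓ) ∧
      OrthTateWith n (fun x => (M (j x) (t x)).ρ ℓ) (fun x => (M (j x) (t x)).ω ℓ)
        (fun x => (M (j x) (t x)).a ℓ) σ :=
  orth_together h B

end Pool.Agent.Zk13.Ro.EvenCoefficientFamilies
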