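import Mathlib
import Pool.Agent.Zk13.Ro.DescO

/-!
# The determinants on the eigenspaces
-/

set_option autoImplicit false
set_option linter.unusedSectionVars false
set_option linter.unusedVariables false

namespace Pool.Agent.Zk13.Ro

open Module Polynomial TensorProduct Pool.Agent.Zk13.Uni Pool.Agent.Y114.MU Pool.Agent.Y114.TF
  Pool.Agent.H204R3.GP Pool.Agent.Zk13 Pool.Agent.Zk13.Rm

noncomputable section

/-- The kernel of a quadratic character of a subgroup of finite index. -/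
theorem exists_ker {Γ : Type} [Group Γ] {K : Type} [Field K] {G : Subgroup Γ} (hG : G.FiniteIndex)
    (f : G →* K) (hf : ∀ s, f s ^ 2 = 1) :
    ∃ H : Subgroup Γ, H.FiniteIndex ∧ H ≤ G ∧ ∀ s (hs : s ∈ G), s ∈ H → f ⟨s, hs⟩ = 1 := by
  let u : G →* Kˣ := f.toHomUnits
  have hu : ∀ s, ((u s : Kˣ) : K) = f s := fun s => rfl
  have h1 : u.range ≤ rootsOfUnity 2 K := by
    rintro _ ⟨s, rfl⟩
    rw [mem_rootsOfUnity]
    apply Units.ext
    rw [Units.val_pow_eq_pow_val, hu, hf, Units.val_one]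
  have h2 : Finite u.range := Finite.of_injective (Subgroup.inclusion h1)
    (Subgroup.inclusion_injective h1)
  have h3 : u.ker.FiniteIndex := inferInstance
  refine ⟨u.ker.map G.subtype, ⟨?_⟩, ?_, ?_⟩
  · have h4 : u.ker.map G.subtype ≤ G := by
      rintro _ ⟨s, -, rfl⟩
      exact s.2
    rw [← Subgroup.relIndex_mul_index h4]
    refine mul_ne_zero ?_ hG.index_ne_zero
    have h5 : (u.ker.map G.subtype).subgroupOf G = u.ker :=
      Subgroup.comap_map_eq_self_of_injective G.subtype_injective _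
    rw [Subgroup.relIndex, h5]
    exact h3.index_ne_zero
  · rintro _ ⟨s, -, rfl⟩
    exact s.2
  · rintro s hs ⟨t, ht, hts⟩
    have h4 : t = ⟨s, hs⟩ := Subtype.ext hts
    rw [← h4, ← hu, (show u t = 1 from ht), Units.val_one]

variable {F : Type} [Field F] [CharZero F] {V : Type} [AddCommGroup V] [Module F V]
  [FiniteDimensional F V] {Γ : Type} [Group Γ] {n : ℕ}
  {K : Type} [Field K] [CharZero K] [Algebra F K] [IsAlgClosed K] [IsGalois F K]
  {p : F[X]} {ρ : Representation F Γ V} {ω : V →ₗ[F] V →ₗ[F] F} {a : End F V}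

/-- The determinants on the eigenspaces are given by a character, for a subgroup of finite index. -/
theorem sign_fin {G : Subgroup Γ} (hG : G.FiniteIndex) (hGa : ∀ s ∈ G, ρ s * a = a * ρ s)
    {χ : Γ → F} {c : Γ →* F} (hχ : ∀ s u v, ω (ρ s u) (ρ s v) = χ s * ω u v)
    (hc : ∀ s, χ s * c s ^ 2 = 1) (z : K)
    (hdim : finrank K ↥(Es (bE K a) z) = n)
    (hnd : ∀ u ∈ Es (bE K a) z, (∀ v ∈ Es (bE K a) z, oK K ω u v = 0) → u = 0) :
    ∃ H : Subgroup Γ, H.FiniteIndex ∧ H ≤ G ∧ ∀ s ∈ H,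
      ∀ h : ∀ x ∈ Es (bE K a) z, bE K (ρ s) x ∈ Es (bE K a) z,
        LinearMap.det ((bE K (ρ s)).restrict h) = algebraMap F K ((c s ^ n)⁻¹) := by
  classical
  have hst : ∀ s ∈ G, ∀ x ∈ Es (bE K a) z, rK K ρ s x ∈ Es (bE K a) z := fun s hs x hx =>
    map_EsN (bE_comm' (K := K) (hGa s hs)) x hx
  obtain ⟨b⟩ := exists_basis (E := ↥(Es (bE K a) z)) hdim
  let f₁ : G →* K := (LinearMap.det (M := ↥(Es (bE K a) z)) (A := K)).comp
    (resR (rK K ρ) G (Es (bE K a) z) hst)
  let f₂ : G →* K := (((algebraMap F K : F →+* K) : F →* K).comp c).comp G.subtype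
  let f : G →* K := f₁ * f₂ ^ n
  have hf : ∀ s : G, f s = LinearMap.det (resR (rK K ρ) G (Es (bE K a) z) hst s) *
      algebraMap F K (c (s : Γ)) ^ n := fun s => rfl
  have h1 : ∀ s : G, LinearMap.det (resR (rK K ρ) G (Es (bE K a) z) hst s) ^ 2 =
      algebraMap F K (χ (s : Γ)) ^ n := by
    intro s
    refine det_sim b ((oK K ω).compl₁₂ (Es (bE K a) z).subtype (Es (bE K a) z).subtype) ?_ ?_
    · intro u hu
      exact Subtype.ext (hnd u u.2 fun v hv => hu ⟨v, hv⟩)
    · intro u v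
      exact oK_sim (K := K) (hχ (s : Γ)) (u : K ⊗[F] V) (v : K ⊗[F] V)
  obtain ⟨H, hH, hHG, hH1⟩ := exists_ker hG f fun s => by
    rw [hf, mul_pow, h1, ← pow_mul, mul_comm n 2, pow_mul, ← mul_pow, ← map_pow, ← map_mul, hc,
      map_one, one_pow]
  refine ⟨H, hH, hHG, fun s hs h => ?_⟩
  have h2 := hH1 s (hHG hs) hs
  rw [hf, ← map_pow] at h2
  rw [map_inv₀]
  exact eq_inv_of_mul_eq_one_left h2

end

end Pool.Agent.Zk13.Ro
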