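import Mathlib
import Pool.Agent.Zk13.Rm.Main
import Pool.Agent.Zk13.Ro.Sign

/-!
# Families of orthogonal motives with coefficients: 100 percent of the members, together
-/

set_option autoImplicit false
set_option linter.unusedSectionVars false
set_option linter.unusedVariables false

namespace Pool.Agent.Zk13.Ro

open NumberField IsDedekindDomain Polynomial Module Filter Topology TensorProduct
  Pool.Agent.Y114.TF Pool.Agent.Y114.GF Pool.Agent.H204R3.GP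
  Pool.Agent.Y114.MU Pool.Agent.Y114.RM Pool.Agent.R931.IR Pool.Agent.N978.HP Pool.Agent.Zk13.Pol
  Pool.Agent.Zk13.Uni Pool.Agent.Zk13
open Pool.Agent.W569.FM Pool.Agent.W571.FM
open Pool.Agent.Zk13.Rm (RT RT_root RT_card RT_nonempty Pl Pl_deg RT_aeval comG mem_comG irr_E
  cent_fin cent_normal reg_K semi_R semi_piD Vi)

variable {P : ℚ[X]} {n : ℕ} {w m : ℕ} {D : MvPolynomial (Fin 2) ℤ}

/-- The property `Pr` holds at a place above some prime number `p ≠ ℓ` outside of `B`. -/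
def PlaceEl (Pr : OrthMotive P n Gal(AlgebraicClosure ℚ/ℚ) → HeightOneSpectrum (𝓞 ℚ) → Prop)
    (N : OrthMotive P n Gal(AlgebraicClosure ℚ/ℚ)) (m : ℕ) (B : Finset ℕ) (ℓ : ℕ) : Prop :=
  ∃ (p : ℕ) (v : HeightOneSpectrum (𝓞 ℚ)), p.Prime ∧ p ≠ ℓ ∧ p ∉ B ∧ ¬ p ∣ m ∧ Above v p ∧ Pr N v

theorem place_almostAll {M : Pt → OrthMotive P n Gal(AlgebraicClosure ℚ/ℚ)} {m₀ : ℕ}
    (hpos : 0 < m₀) (hdvd : m ∣ m₀)
    {Pr : OrthMotive P n Gal(AlgebraicClosure ℚ/ℚ) → HeightOneSpectrum (𝓞 ℚ) → Prop}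
    {C : MvPolynomial (Fin 2) ℤ} (hC : SimpleZeros C) (hc : AtCusp M m D Pr C) (B : Finset ℕ) :
    AlmostAll fun t => InU D t → ∀ (ℓ : ℕ) [Fact ℓ.Prime], PlaceEl Pr (M t) m₀ B ℓ := by
  have hDV : S_DV := Pool.Agent.N279.HP.t_DV
  refine almostAll_mono (sieve_all' hDV hC hpos (B.card + 2)) ?_
  rintro t ⟨Fs, hF1, hFp⟩ ht ℓ _
  obtain ⟨p, hp, hpB, hne⟩ := Pool.Agent.Zk13.exists_notMem hF1 ℓ
  obtain ⟨f1, f2, f3⟩ := hFp p hp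
  obtain ⟨v, hv⟩ := Pool.Agent.R931.IR.exists_above f1.1
  exact ⟨p, v, f1.1, hne, hpB, f1.2, hv, hc t p ht f1.1 (fun h' => f1.2 (h'.trans hdvd)) f2 f3 v hv⟩

/-- **The local elements**, for 100 percent of the points. -/
theorem orth_almostAll {M : Pt → OrthMotive P n Gal(AlgebraicClosure ℚ/ℚ)}
    (h : OrthFamily M w m D) {m₀ : ℕ} (hpos : 0 < m₀) (hdvd : m ∣ m₀) (B : Finset ℕ) :
    AlmostAll fun t => InU D t ∧
    ∀ (ℓ : ℕ) [Fact ℓ.Prime], PlaceEl MaxUnipotentAt (M t) m₀ B ℓ ∧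
      PlaceEl ReflectionAt (M t) m₀ B ℓ ∧
      (1 < P.natDegree → PlaceEl ConjugatesDifferAt (M t) m₀ B ℓ) := by
  classical
  have hSV : S_SV := Pool.Agent.N592.HP.t_SV
  have hDV : S_DV := Pool.Agent.N279.HP.t_DV
  have hAA : S_AA := Pool.Agent.N592.HP.t_AA
  have hF := h.family
  have e0 : AlmostAll (InU D) := by
    obtain ⟨t₀, ht₀⟩ := hF.nonempty
    exact almostAll_inU hSV hDV hF.pos hF.form ht₀
  obtain ⟨C, hC, hc⟩ := h.maximal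
  have e1 := place_almostAll hpos hdvd hC hc B
  obtain ⟨C', hC', hc'⟩ := h.reflection
  have e2 := place_almostAll hpos hdvd hC' hc' B
  have e3 : AlmostAll fun t => InU D t → 1 < P.natDegree → ∀ (ℓ : ℕ) [Fact ℓ.Prime],
      PlaceEl ConjugatesDifferAt (M t) m₀ B ℓ := by
    by_cases h4 : 1 < P.natDegree
    · obtain ⟨C, hC, hc⟩ := h.conjugates h4
      exact almostAll_mono (place_almostAll hpos hdvd hC hc B) fun t ht hU _ => ht hU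
    · exact almostAll_mono e0 fun t _ _ h' => absurd h' h4
  refine almostAll_mono (hAA _ _ e0 (hAA _ _ e1 (hAA _ _ e2 e3))) ?_
  rintro t ⟨k0, k1, k2, k3⟩
  exact ⟨k0, fun ℓ _ => ⟨k1 k0 ℓ, k2 k0 ℓ, fun h1 => k3 k0 h1 ℓ⟩⟩

/-- The data of a member. -/
theorem oMem_of {M : Pt → OrthMotive P n Gal(AlgebraicClosure ℚ/ℚ)} (h : OrthFamily M w m D)
    {m₀ : ℕ} {B : Finset ℕ} {t : Pt} (ht : InU D t) {ℓ : ℕ} [hℓ : Fact ℓ.Prime]
    (h1 : PlaceEl MaxUnipotentAt (M t) m₀ B ℓ) (h2 : PlaceEl ReflectionAt (M t) m₀ B ℓ)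
    (h3 : 1 < P.natDegree → PlaceEl ConjugatesDifferAt (M t) m₀ B ℓ)
    {Z : Type} [AddCommGroup Z] [Module ℚ_[ℓ] Z]
    {σ : Representation ℚ_[ℓ] Gal(AlgebraicClosure ℚ/ℚ) Z} (hσ : UnramifiedOutside σ B)
    (G : Subgroup Gal(AlgebraicClosure ℚ/ℚ))
    (hGn : ∀ s t : Gal(AlgebraicClosure ℚ/ℚ), t ∈ G → s⁻¹ * t * s ∈ G)
    (hGa : ∀ s ∈ G, (M t).ρ ℓ s * (M t).a ℓ = (M t).a ℓ * (M t).ρ ℓ s)
    (hGχ : ∀ s ∈ G, (M t).χ ℓ s = 1)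
    (hGI : ∀ p : ℕ, p.Prime → p ≠ ℓ → ¬ p ∣ m₀ → ∀ v, Above v p → ∀ Q, PrimeOver Q v →
      ∀ τ, InInertiaAt Q τ → τ ∈ G) :
    OMem (AlgebraicClosure ℚ_[ℓ]) (Pl P ℓ) n G ((M t).ρ ℓ) σ ((M t).ω ℓ) ((M t).a ℓ) := by
  have hF := h.family
  have hdeg : (Pl P ℓ).natDegree = P.natDegree := Pl_deg P ℓ
  have hmon : (Pl P ℓ).Monic := h.monic.map _
  have hsep : (Pl P ℓ).Separable := h.separable.map
  have hd : 0 < (Pl P ℓ).natDegree := by rw [hdeg]; exact h.pos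
  obtain ⟨p₁, v₁, hp₁, hp₁ℓ, hp₁B, hp₁m, hv₁, hmum⟩ := h1
  obtain ⟨Q₁, φ₁, hQ₁, hQv₁, hφ₁⟩ := frob_cm v₁
  have hv₁ℓ : ¬ Above v₁ ℓ := notAbove_of_ne hp₁ hℓ.out hp₁ℓ hv₁
  have hTinf : ({p : ℕ | p ≠ ℓ ∧ Pool.Agent.N978.HP.GoodAt m D t p} : Set ℕ).Infinite := by
    have h3 : ({p : ℕ | p.Prime} \ ({ℓ} ∪ {p : ℕ | p.Prime ∧
        ¬ Pool.Agent.N978.HP.GoodAt m D t p})).Infinite :=
      Nat.infinite_setOfPred_prime.sdiff ((Set.finite_singleton ℓ).union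
        (badPrimes_finite hF.pos ht))
    refine h3.mono ?_
    rintro p ⟨hp, hp'⟩
    exact ⟨fun h' => hp' (Or.inl h'), not_not.1 fun h' => hp' (Or.inr ⟨hp, h'⟩)⟩
  constructor
  · exact hmon
  · exact hsep
  · exact hd
  · exact h.rank
  · rw [finrank_fin_fun, hdeg]
  · exact (M t).root ℓ
  · intro u v
    have h4 := (M t).sym ℓ u v
    rw [Int.cast_one] at h4
    exact h4
  · exact (M t).nondeg ℓ
  · exact (M t).bilinear ℓ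
  · intro s hs u v
    rw [(M t).sim ℓ s u v, hGχ s hs, one_mul]
  · exact hGa
  · obtain ⟨hu, τ, hτ, hx, -⟩ := hmum ℓ hv₁ℓ Q₁ ⟨hQ₁.isPrime, hQv₁⟩
    refine ⟨τ, hGI p₁ hp₁ hp₁ℓ hp₁m v₁ hv₁ Q₁ ⟨hQ₁.isPrime, hQv₁⟩ τ hτ,
      hσ p₁ hp₁ hp₁B hp₁ℓ v₁ hv₁ Q₁ ⟨hQ₁.isPrime, hQv₁⟩ τ hτ, hu τ hτ, ?_⟩
    rw [hdeg]
    exact hx
  · obtain ⟨p, v, hp, hpℓ, hpB, hpm, hv, hsm⟩ := h2
    obtain ⟨Q, g, hQ, hg, h5⟩ := hsm ℓ (notAbove_of_ne hp hℓ.out hpℓ hv)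
    refine ⟨g, hGI p hp hpℓ hpm v hv Q hQ g hg, ?_⟩
    rw [hdeg]
    exact h5
  · intro z U hU hUs
    refine irr_E (n := n) hmon hsep hd (by have := h.rank; omega) (by rw [hdeg]) ((M t).ρ ℓ) ((M t).a ℓ)
      ((hF.cont t ht).continuous ℓ) ((M t).χ ℓ) ((hF.cont t ht).similitude ℓ) ((M t).ω ℓ)
      ((M t).nondeg ℓ) ((M t).sim ℓ) ((M t).root ℓ) ((M t).bilinear ℓ) (h.normalizes t ht ℓ)
      {p : ℕ | p ≠ ℓ ∧ Pool.Agent.N978.HP.GoodAt m D t p}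
      (by rw [hTinf.encard_eq]; exact le_top)
      (fun p hp => ⟨hp.2.1, hp.1, fun v hv => unramified hp.2.1 hv⟩) (fun p hp v hv => by
        obtain ⟨P, hP1, hP2⟩ := hF.good t p hp.2 v hv
        exact ⟨P, hP1, fun Q hQ g => hP2 ℓ (notAbove_of_ne hp.2.1 hℓ.out hp.1 hv) Q hQ g⟩)
      hp₁ hp₁ℓ hv₁ (fun Q hQ => ?_) G hGn hGa
      (fun Q hQ τ hτ => hGI p₁ hp₁ hp₁ℓ hp₁m v₁ hv₁ Q hQ τ hτ) z U hU hUs
    obtain ⟨hu, τ, hτ, hx, hrel⟩ := hmum ℓ hv₁ℓ Q hQ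
    refine ⟨hu, τ, hτ, ?_, hrel⟩
    rw [hdeg]
    exact hx
  · intro z z' hzz
    have hd1 : 1 < P.natDegree := by
      by_contra hcon
      have h5 : P.natDegree = 1 := by have := h.pos; omega
      have h6 : Fintype.card (RT (Pl P ℓ) (AlgebraicClosure ℚ_[ℓ])) = 1 := by
        rw [RT_card hsep, hdeg, h5]
      exact hzz (Fintype.card_le_one_iff.1 h6.le z z')
    obtain ⟨p, v, hp, hpℓ, hpB, hpm, hv, hsm⟩ := h3 hd1
    obtain ⟨Q, g, hQ, hg, h5⟩ := hsm ℓ (notAbove_of_ne hp hℓ.out hpℓ hv) z z' (RT_aeval z)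
      (RT_aeval z') fun h => hzz (Subtype.ext h)
    exact ⟨g, hGI p hp hpℓ hpm v hv Q hQ g hg, h5⟩

/-- The property `MotivesDifferAt` holds at a place above some prime number `p ≠ ℓ`. -/
def DifferEl {P P' : ℚ[X]} {n n' : ℕ} (N : OrthMotive P n Gal(AlgebraicClosure ℚ/ℚ))
    (N' : OrthMotive P' n' Gal(AlgebraicClosure ℚ/ℚ)) (m ℓ : ℕ) : Prop :=
  ∃ (p : ℕ) (v : HeightOneSpectrum (𝓞 ℚ)), p.Prime ∧ p ≠ ℓ ∧ ¬ p ∣ m ∧ Above v p ∧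
    MotivesDifferAt N N' v

/-- **The theorem**: the Tate classes of 100 percent of the members of finitely many families with
coefficients, all of them together. -/
theorem orth_together {J : Type} [Fintype J] [Nonempty J] {P : J → ℚ[X]} {n : ℕ} {w m : J → ℕ}
    {D : J → MvPolynomial (Fin 2) ℤ}
    {M : ∀ j, Pt → OrthMotive (P j) n Gal(AlgebraicClosure ℚ/ℚ)}
    (h : ∀ j, OrthFamily (M j) (w j) (m j) (D j)) (B : Finset ℕ) :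
    ∃ S : Set Pt, AlmostAll (fun t => t ∈ S) ∧ ∀ (κ : Type) [Fintype κ]
      (j : κ → J) (t : κ → Pt), (∀ x, t x ∈ S) →
      (∀ x y, x ≠ y → Apart (M (j x)) (m (j x)) (D (j x)) (M (j y)) (m (j y)) (D (j y))
        (∏ i, m i) (t x) (t y)) →
      ∀ (ℓ : ℕ) [Fact ℓ.Prime] (Z : Type) [AddCommGroup Z] [Module ℚ_[ℓ] Z]
        (σ : Representation ℚ_[ℓ] Gal(AlgebraicClosure ℚ/ℚ) Z), UnramifiedOutside σ B →
      FiniteIndexSemisimple (sumRep fun x => (M (j x) (t x)).ρ ℓ) ∧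
      OrthTateWith n (fun x => (M (j x) (t x)).ρ ℓ)
        (fun x => (M (j x) (t x)).ω ℓ) (fun x => (M (j x) (t x)).a ℓ) σ := by
  classical
  have hn3 : 3 ≤ n := (h (Classical.arbitrary J)).rank
  have hAA : S_AA := Pool.Agent.N592.HP.t_AA
  have hDV : S_DV := Pool.Agent.N279.HP.t_DV
  set m₀ : ℕ := ∏ j, m j with hm₀
  have hpos : 0 < m₀ := Finset.prod_pos fun j _ => (h j).family.pos
  have hdvd : ∀ j, m j ∣ m₀ := fun j => Finset.dvd_prod_of_mem m (Finset.mem_univ j)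
  have e1 := almostAll_forall hAA fun j => orth_almostAll (h j) hpos (hdvd j) B
  have e2 : AlmostAll fun t => ∀ jj : J × J,
      (∃ c : Fin 3 → Pt, Distinct c ∧ ∀ i, SpecialFor (M jj.1) (m jj.1) (D jj.1) (M jj.2)
        (m jj.2) (D jj.2) (c i)) →
      ∀ t' : Pt, t'.height ≤ t.height → meet t t' ≠ 0 → InU (D jj.1) t → InU (D jj.2) t' →
        ∀ (ℓ : ℕ) [Fact ℓ.Prime], DifferEl (M jj.1 t) (M jj.2 t') m₀ ℓ := by
    refine almostAll_forall hAA fun jj => ?_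
    by_cases hex : ∃ c : Fin 3 → Pt, Distinct c ∧ ∀ i, SpecialFor (M jj.1) (m jj.1) (D jj.1)
        (M jj.2) (m jj.2) (D jj.2) (c i)
    · obtain ⟨c, hc, hc'⟩ := hex
      refine almostAll_mono (almostAll_separated hc hpos) ?_
      intro t ht _ t' ht' hne htU htU' ℓ hℓ
      obtain ⟨i, p, hp, hpm, f1, f2, f3⟩ := ht t' ht' hne ℓ hℓ.out
      have hpℓ : ℓ ≠ p := fun h' => hpm (h' ▸ dvd_mul_left _ _)
      have hpm' : ¬ p ∣ m₀ := fun h' => hpm (h'.mul_right _)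
      obtain ⟨v, hv⟩ := Pool.Agent.R931.IR.exists_above hp
      exact ⟨p, v, hp, hpℓ.symm, hpm', hv, hc' i t t' htU htU' p hp
        (fun h' => hpm' (h'.trans (hdvd _))) (fun h' => hpm' (h'.trans (hdvd _))) f1 f2 f3 v hv⟩
    · exact almostAll_mono e1 fun t _ hex' => absurd hex' hex
  have e3 : AlmostAll fun t => ∀ jj : J × J,
      FamiliesDiffer (M jj.1) (m jj.1) (D jj.1) (M jj.2) (m jj.2) (D jj.2) →
      InU (D jj.1) t → InU (D jj.2) t →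
        ∀ (ℓ : ℕ) [Fact ℓ.Prime], DifferEl (M jj.1 t) (M jj.2 t) m₀ ℓ := by
    refine almostAll_forall hAA fun jj => ?_
    by_cases hex : FamiliesDiffer (M jj.1) (m jj.1) (D jj.1) (M jj.2) (m jj.2) (D jj.2)
    · obtain ⟨C, hC, hc⟩ := hex
      refine almostAll_mono (sieve_all' hDV hC hpos 2) ?_
      rintro t ⟨Fs, hF1, hFp⟩ _ ht ht' ℓ _
      obtain ⟨p, hp, hne⟩ := Pool.Agent.N978.HP.exists_ne hF1 ℓ
      obtain ⟨f1, f2, f3⟩ := hFp p hp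
      obtain ⟨v, hv⟩ := Pool.Agent.R931.IR.exists_above f1.1
      exact ⟨p, v, f1.1, hne, f1.2, hv, hc t p ht ht' f1.1
        (fun h' => f1.2 (h'.trans (hdvd _))) (fun h' => f1.2 (h'.trans (hdvd _))) f2 f3 v hv⟩
    · exact almostAll_mono e1 fun t _ hex' => absurd hex' hex
  refine ⟨{t | _}, hAA _ _ e1 (hAA _ _ e2 e3), ?_⟩
  intro κ _ j t ht hap ℓ hℓ Z _ _ σ hσ
  have hU : ∀ x, InU (D (j x)) (t x) := fun x => ((ht x).1 (j x)).1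
  set V : κ → Type := fun x => Fin (n * (P (j x)).natDegree) → ℚ_[ℓ] with hVdef
  set ρ : ∀ x, Representation ℚ_[ℓ] Gal(AlgebraicClosure ℚ/ℚ) (V x) :=
    fun x => (M (j x) (t x)).ρ ℓ with hρ
  set a : ∀ x, End ℚ_[ℓ] (V x) := fun x => (M (j x) (t x)).a ℓ with ha
  set G' : Subgroup Gal(AlgebraicClosure ℚ/ℚ) := comG ρ a with hG'
  set G : Subgroup Gal(AlgebraicClosure ℚ/ℚ) := G' ⊓ (cycHom ℓ).ker with hG
  have hGn' : ∀ s t : Gal(AlgebraicClosure ℚ/ℚ), t ∈ G' → s⁻¹ * t * s ∈ G' := by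
    intro s t' ht'
    have h5 := mem_comG.1 ht'
    refine mem_comG.2 fun x => ?_
    exact cent_normal ((h (j x)).normalizes (t x) (hU x) ℓ) (h5 x)
  have hGn : ∀ s t : Gal(AlgebraicClosure ℚ/ℚ), t ∈ G → s⁻¹ * t * s ∈ G := by
    intro s t' ht'
    refine ⟨hGn' s t' ht'.1, ?_⟩
    have h5 : cycHom ℓ t' = 1 := ht'.2
    show cycHom ℓ (s⁻¹ * t' * s) = 1
    rw [map_mul, map_mul, h5, mul_one, ← map_mul, inv_mul_cancel, map_one]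
  have hGa' : ∀ x, ∀ s ∈ G', ρ x s * a x = a x * ρ x s := fun x s hs => mem_comG.1 hs x
  have hGa : ∀ x, ∀ s ∈ G, ρ x s * a x = a x * ρ x s := fun x s hs => hGa' x s hs.1
  have hGχ : ∀ x, ∀ s ∈ G, (M (j x) (t x)).χ ℓ s = 1 := by
    intro x s hs
    have h5 : cycHom ℓ s = 1 := hs.2
    have h6 := ((h (j x)).family.cont (t x) (hU x)).similitude ℓ s
    have h7 : (M (j x) (t x)).χ ℓ s * (cycHom ℓ s) ^ w (j x) = 1 := h6
    rwa [h5, one_pow, mul_one] at h7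
  have hGI : ∀ p : ℕ, p.Prime → p ≠ ℓ → ¬ p ∣ m₀ → ∀ v, Above v p →
      ∀ Q, PrimeOver Q v → ∀ τ, InInertiaAt Q τ → τ ∈ G := by
    intro p hp hpℓ hpm v hv Q hQ τ hτ
    have hvℓ := notAbove_of_ne hp hℓ.out hpℓ hv
    refine ⟨mem_comG.2 fun y => ?_, cyc_inertia hQ hvℓ hτ⟩
    exact (h (j y)).unramified (t y) p (hU y) hp (fun h' => hpm (h'.trans (hdvd _))) v hv ℓ hvℓ Q
      hQ τ hτ
  have hmem : ∀ x, OMem (AlgebraicClosure ℚ_[ℓ]) (Pl (P (j x)) ℓ) n G (ρ x) σ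
      ((M (j x) (t x)).ω ℓ) (a x) := by
    intro x
    obtain ⟨k1, k2, k3⟩ := ((ht x).1 (j x)).2 ℓ
    exact oMem_of (h (j x)) (hU x) k1 k2 k3 hσ G hGn (hGa x) (hGχ x) hGI
  have hEne : ∀ x (z : RT (Pl (P (j x)) ℓ) (AlgebraicClosure ℚ_[ℓ])),
      Es (bE (AlgebraicClosure ℚ_[ℓ]) (a x)) (z : AlgebraicClosure ℚ_[ℓ]) ≠ ⊥ := by
    intro x z h0
    obtain ⟨τ, hτ, -, hnil, hfull⟩ := (hmem x).mum
    have hfa : (ρ x τ - 1) * a x = a x * (ρ x τ - 1) := by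
      rw [sub_mul, mul_sub, hGa x τ hτ, one_mul, mul_one]
    have h1 : finrank (AlgebraicClosure ℚ_[ℓ]) (Es (bE (AlgebraicClosure ℚ_[ℓ]) (a x))
        (z : AlgebraicClosure ℚ_[ℓ])) = n - 1 + 1 :=
      (reg_K (K := AlgebraicClosure ℚ_[ℓ]) (hmem x).monic (hmem x).sep (hmem x).deg (hmem x).root
        hfa hnil (by omega) (hmem x).dim hfull z).dim
    rw [h0, finrank_bot] at h1
    omega
  have hGf : ∀ x, (cent (a x) (ρ x)).FiniteIndex := fun x =>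
    cent_fin (K := AlgebraicClosure ℚ_[ℓ]) (hmem x).monic (hmem x).sep (hmem x).deg
      (hmem x).root (hEne x) ((h (j x)).normalizes (t x) (hU x) ℓ)
  have hGf' : G'.FiniteIndex := Subgroup.finiteIndex_iInf hGf
  refine ⟨semi_piD fun x => ?_, ?_⟩
  · refine semi_R (K := AlgebraicClosure ℚ_[ℓ]) (hmem x).monic (hmem x).sep (hmem x).deg
      (hmem x).root G' hGf' (hGa' x) fun z U hU' hUs => (hmem x).irr z U hU' fun s hs => hUs s hs.1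
  let cc : ∀ x : κ, Gal(AlgebraicClosure ℚ/ℚ) →* ℚ_[ℓ] := fun x => (cycHom ℓ) ^ (w (j x) / 2)
  have hcc : ∀ x s, (M (j x) (t x)).χ ℓ s * cc x s ^ 2 = 1 := by
    intro x s
    have h6 := ((h (j x)).family.cont (t x) (hU x)).similitude ℓ s
    have h7 : (M (j x) (t x)).χ ℓ s * (cycHom ℓ s) ^ w (j x) = 1 := h6
    have h8 : w (j x) = w (j x) / 2 * 2 := (Nat.div_mul_cancel (h (j x)).even.two_dvd).symm
    rw [h8, pow_mul] at h7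
    exact h7
  have hH : ∀ i : Σ x, RT (Pl (P (j x)) ℓ) (AlgebraicClosure ℚ_[ℓ]),
      ∃ H : Subgroup Gal(AlgebraicClosure ℚ/ℚ), H.FiniteIndex ∧ H ≤ G' ∧ ∀ s ∈ H,
        ∀ h : ∀ x ∈ Es (bE (AlgebraicClosure ℚ_[ℓ]) (a i.1)) (i.2 : AlgebraicClosure ℚ_[ℓ]),
          bE (AlgebraicClosure ℚ_[ℓ]) (ρ i.1 s) x ∈
            Es (bE (AlgebraicClosure ℚ_[ℓ]) (a i.1)) (i.2 : AlgebraicClosure ℚ_[ℓ]),
        LinearMap.det ((bE (AlgebraicClosure ℚ_[ℓ]) (ρ i.1 s)).restrict h) =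
          algebraMap ℚ_[ℓ] (AlgebraicClosure ℚ_[ℓ]) ((cc i.1 s ^ n)⁻¹) := by
    intro i
    exact sign_fin (K := AlgebraicClosure ℚ_[ℓ]) hGf' (hGa' i.1)
      ((M (j i.1) (t i.1)).sim ℓ) (hcc i.1) (i.2 : AlgebraicClosure ℚ_[ℓ]) (Vi_finrank hmem i)
      fun u hu hv => nd_KO (hmem i.1) i.2 hu hv
  choose H hHf hHG hHd using hH
  have hG2f : (G' ⊓ ⨅ i, H i).FiniteIndex := by
    have h1 : (⨅ i, H i).FiniteIndex := Subgroup.finiteIndex_iInf hHf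
    exact inferInstance
  refine descend_O (K := AlgebraicClosure ℚ_[ℓ]) (d := fun x s => (cc x s ^ n)⁻¹) hn3 hmem
    (fun x => (M (j x) (t x)).sim ℓ) hG2f (fun x s hs => hGa' x s hs.1)
    (fun i s hs' hs => hHd i s (Subgroup.mem_iInf.1 hs.2 i) hs') fun x y hxy z z' => ?_
  rcases hap x y hxy with ⟨p, q, hpq, hs⟩ | ⟨hs1, hs2⟩ | ⟨hs1, hs2, hs3⟩
  · obtain ⟨r, hr, hrℓ⟩ : ∃ r ∈ ({p, q} : Finset ℕ), r ≠ ℓ := by
      by_cases hp : p = ℓ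
      · exact ⟨q, by simp, fun h' => hpq (hp.trans h'.symm)⟩
      · exact ⟨p, by simp, hp⟩
    obtain ⟨h5, h6, h7⟩ := hs r hr
    obtain ⟨v, hv⟩ := Pool.Agent.R931.IR.exists_above h5
    obtain ⟨Q, g, hQ, hg, hdf⟩ := h7 v hv ℓ (notAbove_of_ne h5 hℓ.out hrℓ hv) z z' (RT_aeval z)
      (RT_aeval z')
    exact Or.inl ⟨g, hGI r h5 hrℓ h6 v hv Q hQ g hg, hdf⟩
  · have h5 : DifferEl (M (j x) (t x)) (M (j y) (t x)) m₀ ℓ := (ht x).2.2 (j x, j y) hs2 (hU x)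
      (by rw [hs1]; exact hU y) ℓ
    have h6 : M (j y) (t x) = M (j y) (t y) := by rw [hs1]
    rw [h6] at h5
    obtain ⟨p, v, hp, hpℓ, hpm, hv, hdf⟩ := h5
    obtain ⟨Q, g, hQ, hg, hdf⟩ := hdf ℓ (notAbove_of_ne hp hℓ.out hpℓ hv) z z' (RT_aeval z)
      (RT_aeval z')
    exact Or.inl ⟨g, hGI p hp hpℓ hpm v hv Q hQ g hg, hdf⟩
  · rcases le_total (t y).height (t x).height with hle | hle
    · obtain ⟨p, v, hp, hpℓ, hpm, hv, hdf⟩ := (ht x).2.1 (j x, j y) hs2 (t y) hle hs1 (hU x) (hU y) ℓ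
      obtain ⟨Q, g, hQ, hg, hdf⟩ := hdf ℓ (notAbove_of_ne hp hℓ.out hpℓ hv) z z' (RT_aeval z)
        (RT_aeval z')
      exact Or.inl ⟨g, hGI p hp hpℓ hpm v hv Q hQ g hg, hdf⟩
    · obtain ⟨p, v, hp, hpℓ, hpm, hv, hdf⟩ := (ht y).2.1 (j y, j x) hs3 (t x) hle
        (fun h0 => hs1 (by unfold meet at h0 ⊢; linarith)) (hU y) (hU x) ℓ
      obtain ⟨Q, g, hQ, hg, hdf⟩ := hdf ℓ (notAbove_of_ne hp hℓ.out hpℓ hv) z' z (RT_aeval z')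
        (RT_aeval z)
      exact Or.inr ⟨g, hGI p hp hpℓ hpm v hv Q hQ g hg, hdf⟩

end Pool.Agent.Zk13.Ro
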